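import Pool.Agent.helper24.BVD.RatioDefs
import Pool.Agent.helper31.BVM.C01
import Pool.Agent.helper10.BV.Final

/-!
# BVD-PD: the pair density theorem as `PDStmt`
-/

open Finset

namespace BVD

theorem pd : PDStmt := by
  classical
  intro ε hε
  obtain ⟨K, hK⟩ := BVM.pair_density BVM.bvInput ε hε
  refine ⟨K, ?_⟩
  intro I _ a b hab hI
  refine (hK I a b hab hI).trans (le_of_eq ?_)
  congr!

end BVD
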