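import Pool.Agent.helper24.BVD.Defs

/-!
# BVD-CountClq: many cliques from a minimum degree condition

PROOF.  `F` symmetric, `A` of size `k` such that every `x ∈ A` has at most `(1/r - ε) k` elements `y ∈ A`,
`y ≠ x`, with `F x y` (`r ≥ 1`).  Count the `(r+1)`-tuples in `A` which are cliques for `¬ F`: having chosen
a clique `x_0,...,x_(s-1)` (`s ≤ r`), the number of `y ∈ A` with `y ≠ x_i` and `¬ F x_i y` for all `i` is at
least `k - s - s (1/r - ε) k ≥ k - r - r (1/r - ε) k = r ε k - r ≥ (r ε/2) k` if `k ≥ 2/ε`.  So there are at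
least `(r ε k/2)^(r+1)` such tuples (for `s = 0` there are `k ≥ (rε/2) k` choices as `r ε ≤ 1`; `ε ≤ 1/r`
follows from the hypothesis since degrees are `≥ 0`, `A` nonempty).  Induction on the length, tuples
counted as functions `Fin s → V` with values in `A` (`Fintype.piFinset (fun _ => A)`), `Fin.cons`/`Fin.snoc`.
-/

open Finset

namespace BVD

open Classical in
private theorem CountClq_good {V : Type*} (F : V → V → Prop) (r : ℕ) (hr : 1 ≤ r)
    (ε : ℝ) (hε : 0 < ε) (A : Finset V) (hA : 2 / ε ≤ (A.card : ℝ)) (hA0 : 0 < A.card)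
    (h : ∀ x ∈ A, (((A.filter (fun y => x ≠ y ∧ F x y)).card : ℕ) : ℝ) ≤
      (1 / (r : ℝ) - ε) * A.card) (s : ℕ) (hs : s ≤ r) (x : Fin s → V) (hx : ∀ i, x i ∈ A) :
    r * ε / 2 * (A.card : ℝ) ≤
      ((A.filter (fun y => ∀ i, x i ≠ y ∧ ¬ F (x i) y)).card : ℝ) := by
  have hr0 : (0 : ℝ) < r := by exact_mod_cast hr
  have hk0 : (0 : ℝ) < A.card := by exact_mod_cast hA0
  set k : ℝ := (A.card : ℝ) with hk
  set d : ℝ := (1 / (r : ℝ) - ε) * k with hd
  have hd0 : 0 ≤ d := by
    obtain ⟨a, ha⟩ := card_pos.1 hA0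
    exact (Nat.cast_nonneg _).trans (h a ha)
  have hsub : A.filter (fun y => ¬ ∀ i, x i ≠ y ∧ ¬ F (x i) y) ⊆
      (univ : Finset (Fin s)).biUnion
        (fun i => insert (x i) (A.filter (fun y => x i ≠ y ∧ F (x i) y))) := by
    intro y hy
    rw [mem_filter] at hy
    obtain ⟨hyA, hy⟩ := hy
    push Not at hy
    obtain ⟨i, hi⟩ := hy
    rw [mem_biUnion]
    refine ⟨i, mem_univ _, ?_⟩
    rw [mem_insert, mem_filter]
    by_cases hxy : x i = y
    · exact Or.inl hxy.symm
    · exact Or.inr ⟨hyA, hxy, hi hxy⟩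
  have hc1 : ((A.filter (fun y => ¬ ∀ i, x i ≠ y ∧ ¬ F (x i) y)).card : ℝ) ≤ s * (1 + d) := by
    have h1 : (A.filter (fun y => ¬ ∀ i, x i ≠ y ∧ ¬ F (x i) y)).card ≤
        ∑ i : Fin s, (insert (x i) (A.filter (fun y => x i ≠ y ∧ F (x i) y))).card :=
      (card_le_card hsub).trans card_biUnion_le
    have h2 : ((∑ i : Fin s, (insert (x i) (A.filter (fun y => x i ≠ y ∧ F (x i) y))).card : ℕ) : ℝ)
        ≤ ∑ _i : Fin s, (1 + d) := by
      push_cast
      refine sum_le_sum fun i _ => ?_
      have h3 : ((insert (x i) (A.filter (fun y => x i ≠ y ∧ F (x i) y))).card : ℝ) ≤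
          (A.filter (fun y => x i ≠ y ∧ F (x i) y)).card + 1 := by
        exact_mod_cast card_insert_le _ _
      have h4 := h (x i) (hx i)
      linarith
    have h5 : ∑ _i : Fin s, (1 + d) = s * (1 + d) := by
      rw [sum_const, card_univ, Fintype.card_fin, nsmul_eq_mul]
    rw [h5] at h2
    exact le_trans (by exact_mod_cast h1) h2
  have hc2 : ((A.filter (fun y => ∀ i, x i ≠ y ∧ ¬ F (x i) y)).card : ℝ) +
      ((A.filter (fun y => ¬ ∀ i, x i ≠ y ∧ ¬ F (x i) y)).card : ℝ) = k := by
    rw [hk]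
    exact_mod_cast card_filter_add_card_filter_not (s := A) (fun y => ∀ i, x i ≠ y ∧ ¬ F (x i) y)
  have hsr : (s : ℝ) ≤ r := by exact_mod_cast hs
  have h6 : (s : ℝ) * (1 + d) ≤ r * (1 + d) := mul_le_mul_of_nonneg_right hsr (by linarith)
  have h7 : (r : ℝ) * d = k - r * ε * k := by
    rw [hd]
    field_simp
  have h8 : 2 ≤ ε * k := by
    rw [div_le_iff₀ hε] at hA
    linarith
  have h9 : 2 * (r : ℝ) ≤ r * ε * k := by nlinarith
  nlinarith

open Classical in
theorem countClq {V : Type*} (F : V → V → Prop) (hF : ∀ a b, F a b → F b a) (r : ℕ) (hr : 1 ≤ r)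
    (ε : ℝ) (hε : 0 < ε) (A : Finset V) (hA : 2 / ε ≤ (A.card : ℝ)) (hA0 : 0 < A.card)
    (h : ∀ x ∈ A, (((A.filter (fun y => x ≠ y ∧ F x y)).card : ℕ) : ℝ) ≤
      (1 / (r : ℝ) - ε) * A.card) :
    (r * ε / 2 * (A.card : ℝ)) ^ (r + 1) ≤
      (((Fintype.piFinset (fun _ : Fin (r + 1) => A)).filter
        (fun x => Clq (fun a b => ¬ F a b) x)).card : ℝ) := by
  have hr0 : (0 : ℝ) < r := by exact_mod_cast hr
  have key : ∀ s : ℕ, s ≤ r + 1 → (r * ε / 2 * (A.card : ℝ)) ^ s ≤
      (((Fintype.piFinset (fun _ : Fin s => A)).filter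
        (fun x => Clq (fun a b => ¬ F a b) x)).card : ℝ) := by
    intro s
    induction s with
    | zero =>
      intro _
      rw [pow_zero]
      have : 0 < ((Fintype.piFinset (fun _ : Fin 0 => A)).filter
        (fun x => Clq (fun a b => ¬ F a b) x)).card := by
        rw [card_pos]
        refine ⟨fun i => i.elim0, ?_⟩
        rw [mem_filter, Fintype.mem_piFinset]
        exact ⟨fun i => i.elim0, fun i => i.elim0⟩
      exact_mod_cast this
    | succ s ih =>
      intro hs
      have ih' := ih (by omega)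
      set P := (Fintype.piFinset (fun _ : Fin s => A)).filter
        (fun x => Clq (fun a b => ¬ F a b) x) with hP
      set Q := (Fintype.piFinset (fun _ : Fin (s + 1) => A)).filter
        (fun x => Clq (fun a b => ¬ F a b) x) with hQ
      have hcard : (P.sigma (fun x => A.filter (fun y => ∀ i, x i ≠ y ∧ ¬ F (x i) y))).card ≤
          Q.card := by
        refine card_le_card_of_injOn (fun p => (Fin.cons p.2 p.1 : Fin (s + 1) → V)) ?_ ?_
        · intro p hp
          rw [mem_coe, mem_sigma, mem_filter, mem_filter, Fintype.mem_piFinset] at hp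
          obtain ⟨⟨hpA, hpC⟩, hyA, hy⟩ := hp
          rw [mem_coe, hQ, mem_filter, Fintype.mem_piFinset]
          refine ⟨fun i => ?_, fun i j hij => ?_⟩
          · refine Fin.cases ?_ (fun i => ?_) i
            · simpa using hyA
            · simpa using hpA i
          · revert hij
            refine Fin.cases ?_ (fun i => ?_) i
            · refine Fin.cases (fun hij => (hij rfl).elim) (fun j _ => ?_) j
              simp only [Fin.cons_zero, Fin.cons_succ]
              exact ⟨(hy j).1.symm, fun hh => (hy j).2 (hF _ _ hh)⟩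
            · refine Fin.cases (fun _ => ?_) (fun j hij => ?_) j
              · simp only [Fin.cons_zero, Fin.cons_succ]
                exact hy i
              · simp only [Fin.cons_succ]
                exact hpC i j (fun hh => hij (by rw [hh]))
        · intro p _ p' _ hpp
          obtain ⟨h1, h2⟩ := Fin.cons_injective2 hpp
          exact Sigma.ext h2 (heq_of_eq h1)
      rw [card_sigma] at hcard
      have hcard' : (∑ x ∈ P, ((A.filter (fun y => ∀ i, x i ≠ y ∧ ¬ F (x i) y)).card : ℝ)) ≤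
          Q.card := by exact_mod_cast hcard
      refine le_trans ?_ hcard'
      have h1 : ∑ _x ∈ P, (r * ε / 2 * (A.card : ℝ)) ≤
          ∑ x ∈ P, ((A.filter (fun y => ∀ i, x i ≠ y ∧ ¬ F (x i) y)).card : ℝ) := by
        refine sum_le_sum fun x hx => ?_
        rw [hP, mem_filter, Fintype.mem_piFinset] at hx
        exact CountClq_good F r hr ε hε A hA hA0 h s (by omega) x hx.1
      refine le_trans ?_ h1
      rw [sum_const, nsmul_eq_mul, pow_succ]
      exact mul_le_mul_of_nonneg_right ih' (by positivity)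
  exact key (r + 1) le_rfl

end BVD
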