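import Pool.Agent.helper24.BVD.Defs

/-!
# BVD-Erdos: dense r-partite r-uniform hypergraphs contain complete ones (Erdős 1964) (author: helper59)

PROOF.  Induction on `r`.  `r = 0`: trivial (`T` nonempty as `|T| ≥ c > 0`).
Step `r → r+1`: `T` a set of `(r+1)`-tuples in `A` (`|A| = k`), `|T| ≥ c k^(r+1)`, `c ≤ 1`.  For a tuple `y` of length
`r` let `d(y)` be the number of `a ∈ A` with `cons a y ∈ T`.  `∑_y d(y) ≥ c k^(r+1)`, `d ≤ k`, so at least
`(c/2) k^r` of the `y` have `d(y) ≥ (c/2) k`.  For each of them there are at least `choose ⌈ck/2⌉ t`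
`≥ (c/4)^t k^t / t!` subsets `S` of `A` with `|S| = t`, `S ⊆ {a : cons a y ∈ T}` (if `k ≥ 4t/c`), out of at
most `k^t/t!` subsets; by pigeonhole (double counting) one `S` works for at least `(c/2)(c/4)^t k^r` tuples
`y`.  Apply the induction hypothesis to these `y` with `c' = (c/2)(c/4)^t`.
(To avoid binomials count injective `t`-tuples or arbitrary functions `Fin t → A` with injective ones
being the majority.)
-/

open Finset

namespace BVD

/-- Picking `j` vertices one after the other. -/
private theorem erdos_pick {V : Type} [DecidableEq V] {ι : Type} (A : Finset V) (Y0 : Finset ι)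
    (R : V → ι → Prop) [∀ a y, Decidable (R a y)] (d : ℝ) (hd : 0 < d) (t : ℕ)
    (h0 : ∀ y ∈ Y0, 2 * d * (A.card : ℝ) ≤ (A.filter fun a => R a y).card)
    (ht : (t : ℝ) ≤ d * A.card) (htA : t ≤ A.card) :
    ∀ j ≤ t, ∃ S : Finset V, S ⊆ A ∧ S.card = j ∧ ∃ Y : Finset ι, Y ⊆ Y0 ∧
      (∀ a ∈ S, ∀ y ∈ Y, R a y) ∧ d ^ j * (Y0.card : ℝ) ≤ Y.card := by
  intro j
  induction j with
  | zero =>
    intro _
    exact ⟨∅, by simp, by simp, Y0, by simp, by simp, by simp⟩
  | succ j ih =>
    intro hj
    obtain ⟨S, hSA, hSc, Y, hY, hR, hc⟩ := ih (by omega)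
    have hne : (A \ S).Nonempty := by
      rw [← Finset.card_pos]
      have h1 := Finset.card_sdiff_add_card_eq_card hSA
      omega
    have hdc : ∑ a ∈ A \ S, ((Y.filter fun y => R a y).card : ℝ) =
        ∑ y ∈ Y, (((A \ S).filter fun a => R a y).card : ℝ) := by
      have h1 := Finset.sum_card_bipartiteAbove_eq_sum_card_bipartiteBelow (s := A \ S) (t := Y) R
      unfold Finset.bipartiteAbove Finset.bipartiteBelow at h1
      exact_mod_cast h1
    have hlow : ∀ y ∈ Y, d * (A.card : ℝ) ≤ (((A \ S).filter fun a => R a y).card : ℝ) := by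
      intro y hy
      have h1 : (A.filter fun a => R a y) ⊆ ((A \ S).filter fun a => R a y) ∪ S := by
        intro a ha
        rw [Finset.mem_filter] at ha
        rw [Finset.mem_union, Finset.mem_filter, Finset.mem_sdiff]
        by_cases haS : a ∈ S
        · exact Or.inr haS
        · exact Or.inl ⟨⟨ha.1, haS⟩, ha.2⟩
      have h2 := (Finset.card_le_card h1).trans (Finset.card_union_le _ _)
      rw [hSc] at h2
      have h3 : ((A.filter fun a => R a y).card : ℝ) ≤
          (((A \ S).filter fun a => R a y).card : ℝ) + j := by exact_mod_cast h2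
      have h4 := h0 y (hY hy)
      have h5 : (j : ℝ) ≤ t := by exact_mod_cast (by omega : j ≤ t)
      linarith
    obtain ⟨a, ha, hle⟩ : ∃ a ∈ A \ S, d * (Y.card : ℝ) ≤ ((Y.filter fun y => R a y).card : ℝ) := by
      apply Finset.exists_le_of_sum_le hne
      rw [Finset.sum_const, nsmul_eq_mul, hdc]
      have h1 : (((A \ S).card : ℕ) : ℝ) ≤ A.card := by
        exact_mod_cast Finset.card_le_card Finset.sdiff_subset
      have h2 : ∑ _y ∈ Y, d * (A.card : ℝ) ≤ ∑ y ∈ Y, (((A \ S).filter fun a => R a y).card : ℝ) :=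
        Finset.sum_le_sum hlow
      rw [Finset.sum_const, nsmul_eq_mul] at h2
      have h3 : ((A \ S).card : ℝ) * (d * (Y.card : ℝ)) ≤ (A.card : ℝ) * (d * (Y.card : ℝ)) :=
        mul_le_mul_of_nonneg_right h1 (by positivity)
      nlinarith
    rw [Finset.mem_sdiff] at ha
    refine ⟨insert a S, Finset.insert_subset ha.1 hSA, ?_, Y.filter fun y => R a y,
      (Finset.filter_subset _ _).trans hY, ?_, ?_⟩
    · rw [Finset.card_insert_of_notMem ha.2, hSc]
    · intro b hb y hy
      rw [Finset.mem_filter] at hy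
      rcases Finset.mem_insert.1 hb with rfl | hb
      · exact hy.2
      · exact hR b hb y hy.1
    · calc d ^ (j + 1) * (Y0.card : ℝ) = d * (d ^ j * (Y0.card : ℝ)) := by ring
        _ ≤ d * (Y.card : ℝ) := mul_le_mul_of_nonneg_left hc hd.le
        _ ≤ _ := hle

theorem erdos (r t : ℕ) (c : ℝ) (hc : 0 < c) : ∃ k₀ : ℕ, ∀ {V : Type} [DecidableEq V]
    (A : Finset V) (T : Finset (Fin r → V)), T ⊆ Fintype.piFinset (fun _ => A) →
    k₀ ≤ A.card → c * (A.card : ℝ) ^ r ≤ T.card →
    ∃ S : Fin r → Finset V, (∀ i, (S i).card = t ∧ S i ⊆ A) ∧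
      ∀ x : Fin r → V, (∀ i, x i ∈ S i) → x ∈ T := by
  induction r generalizing c with
  | zero =>
    refine ⟨0, ?_⟩
    intro V _ A T _ _ hT
    rw [pow_zero, mul_one] at hT
    have h1 : 0 < T.card := by
      have : (0 : ℝ) < T.card := lt_of_lt_of_le hc hT
      exact_mod_cast this
    obtain ⟨x0, hx0⟩ := Finset.card_pos.1 h1
    refine ⟨fun _ => ∅, fun i => i.elim0, fun x _ => ?_⟩
    rwa [Subsingleton.elim x x0]
  | succ r ih =>
    obtain ⟨k1, hk1⟩ := ih ((c / 4) ^ t * (c / 2)) (by positivity)
    obtain ⟨k2, hk2⟩ := exists_nat_ge ((t : ℝ) / (c / 4))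
    refine ⟨k1 + k2 + t + 1, ?_⟩
    intro V _ A T hTA hA hT
    have hkpos : (0 : ℝ) < A.card := by
      have : 0 < A.card := by omega
      exact_mod_cast this
    set U : Finset (Fin r → V) := Fintype.piFinset fun _ => A with hU
    have hUc : (U.card : ℝ) = (A.card : ℝ) ^ r := by
      rw [hU, Fintype.card_piFinset]
      simp
    let R : V → (Fin r → V) → Prop := fun a y => (Fin.cons a y : Fin (r + 1) → V) ∈ T
    have hdec : ∀ a y, Decidable (R a y) := fun a y =>
      inferInstanceAs (Decidable ((Fin.cons a y : Fin (r + 1) → V) ∈ T))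
    have hcount : (T.card : ℝ) ≤ ∑ y ∈ U, ((A.filter fun a => R a y).card : ℝ) := by
      have h1 : T.card = ∑ y ∈ U, (T.filter fun x => Fin.tail x = y).card := by
        apply Finset.card_eq_sum_card_fiberwise
        intro x hx
        have hx' := Fintype.mem_piFinset.1 (hTA hx)
        exact Fintype.mem_piFinset.2 fun i => hx' i.succ
      have h2 : T.card ≤ ∑ y ∈ U, (A.filter fun a => R a y).card := by
        rw [h1]
        refine Finset.sum_le_sum fun y _ => ?_
        refine Finset.card_le_card_of_injOn (fun x => x 0) ?_ ?_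
        · intro x hx
          rw [Finset.mem_coe, Finset.mem_filter] at hx
          rw [Finset.mem_coe, Finset.mem_filter]
          refine ⟨Fintype.mem_piFinset.1 (hTA hx.1) 0, ?_⟩
          change (Fin.cons (x 0) y : Fin (r + 1) → V) ∈ T
          rw [← hx.2, Fin.cons_self_tail]
          exact hx.1
        · intro x hx x' hx' he
          rw [Finset.mem_coe, Finset.mem_filter] at hx hx'
          rw [← Fin.cons_self_tail x, ← Fin.cons_self_tail x', hx.2, hx'.2]
          have he' : x 0 = x' 0 := he
          rw [he']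
      exact_mod_cast h2
    set Y0 : Finset (Fin r → V) := U.filter fun y =>
      c / 2 * (A.card : ℝ) ≤ ((A.filter fun a => R a y).card : ℝ) with hY0
    have hY0c : c / 2 * (A.card : ℝ) ^ r ≤ Y0.card := by
      have h1 : ∑ y ∈ U, ((A.filter fun a => R a y).card : ℝ) ≤
          ∑ y ∈ U, ((if y ∈ Y0 then (A.card : ℝ) else 0) + c / 2 * (A.card : ℝ)) := by
        refine Finset.sum_le_sum fun y hy => ?_
        by_cases h : y ∈ Y0
        · rw [if_pos h]
          have h2 : ((A.filter fun a => R a y).card : ℝ) ≤ A.card := by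
            exact_mod_cast Finset.card_le_card (Finset.filter_subset _ _)
          have h3 : 0 ≤ c / 2 * (A.card : ℝ) := by positivity
          linarith
        · rw [if_neg h]
          have h2 : ¬ c / 2 * (A.card : ℝ) ≤ ((A.filter fun a => R a y).card : ℝ) := fun h4 =>
            h (Finset.mem_filter.2 ⟨hy, h4⟩)
          push Not at h2
          linarith
      rw [Finset.sum_add_distrib, Finset.sum_const, nsmul_eq_mul, hUc] at h1
      have h4 : ∑ y ∈ U, (if y ∈ Y0 then (A.card : ℝ) else 0) = (Y0.card : ℝ) * A.card := by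
        rw [← Finset.sum_filter, Finset.sum_const, nsmul_eq_mul]
        congr 2
        apply congrArg
        ext y
        rw [Finset.mem_filter]
        exact ⟨fun h => h.2, fun h => ⟨(Finset.mem_filter.1 h).1, h⟩⟩
      rw [h4] at h1
      have h5 : c * (A.card : ℝ) ^ (r + 1) ≤ (Y0.card : ℝ) * A.card +
          (A.card : ℝ) ^ r * (c / 2 * A.card) := hT.trans (hcount.trans h1)
      have h6 : (c / 2 * (A.card : ℝ) ^ r) * A.card ≤ (Y0.card : ℝ) * A.card := by
        rw [pow_succ] at h5
        nlinarith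
      exact le_of_mul_le_mul_right h6 hkpos
    have hcard : ((k1 + k2 + t + 1 : ℕ) : ℝ) ≤ A.card := by exact_mod_cast hA
    have ht : (t : ℝ) ≤ c / 4 * A.card := by
      have h1 : (t : ℝ) ≤ k2 * (c / 4) := by
        rwa [div_le_iff₀ (by positivity)] at hk2
      have h2 : (k2 : ℝ) ≤ A.card := by
        exact_mod_cast (by omega : k2 ≤ A.card)
      nlinarith
    obtain ⟨S, hSA, hSc, Y, hYY, hR, hYc⟩ := erdos_pick A Y0 R (c / 4) (by positivity) t
      (fun y hy => by
        have := (Finset.mem_filter.1 hy).2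
        linarith) ht (by omega) t le_rfl
    obtain ⟨S', hS', hx'⟩ := hk1 A Y (hYY.trans (Finset.filter_subset _ _)) (by omega) (by
      refine le_trans ?_ hYc
      rw [mul_assoc]
      exact mul_le_mul_of_nonneg_left hY0c (by positivity))
    refine ⟨Fin.cons S S', ?_, ?_⟩
    · intro i
      refine Fin.cases ?_ (fun i => ?_) i
      · rw [Fin.cons_zero]
        exact ⟨hSc, hSA⟩
      · rw [Fin.cons_succ]
        exact hS' i
    · intro x hx
      have h1 : x 0 ∈ S := by
        have := hx 0
        rwa [Fin.cons_zero] at this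
      have h2 : Fin.tail x ∈ Y := by
        apply hx'
        intro i
        have := hx i.succ
        rwa [Fin.cons_succ] at this
      have h3 := hR _ h1 _ h2
      change (Fin.cons (x 0) (Fin.tail x) : Fin (r + 1) → V) ∈ T at h3
      rwa [Fin.cons_self_tail] at h3

end BVD
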