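import Pool.Agent.helper24.BVD.Defs

/-!
# BVD-MinDeg: extremal sets have small degrees

PROOF.  `F` symmetric.  For `k ≥ 2` let `g k` be the infimum (minimum) of `pairs F A/(k(k-1))` over the
`k`-element sets `A` (`V` infinite, so they exist).  Averaging over the `k+1` subsets obtained by
deleting one element: `(k-1) pairs F A = ∑_{x ∈ A} pairs F (A \ x)` for `|A| = k+1`, so `g k ≤ g (k+1)`;
`g ≤ 1`, so `g` converges to some `L ≤ 1`.  If `Dens F c` fails, then there is `ε₀ > 0` with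
`g k < c - ε₀` for infinitely many `k` (note `k(k-1) ≤ k²`), hence for all `k` by monotonicity.
For a minimiser `A` (`|A| = k`) and `x ∈ A`, symmetry gives `2 deg(x) = pairs F A - pairs F (A \ x) ≤
g k * k(k-1) - g (k-1) * (k-1)(k-2) = (k-1)(2 g (k-1) + k (g k - g (k-1)))`, so
`deg(x) ≤ (k-1)(g (k-1) + k (g k - g (k-1))/2)`.  As `∑ (g k - g (k-1)) < ∞`, for arbitrarily large `k`
`k (g k - g (k-1)) ≤ ε₀` (otherwise the sum diverges like the harmonic series).  For such `k`: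
`deg(x) ≤ k (c - ε₀ + ε₀/2) = (c - ε₀/2) k` for all `x ∈ A`.
-/

open Finset

namespace BVD

open Classical in
/-- degree of `x` in `A` -/
private noncomputable def mdDeg {V : Type*} (F : V → V → Prop) (A : Finset V) (x : V) : ℕ :=
  (A.filter (fun y => x ≠ y ∧ F x y)).card

private lemma md_pairs_eq {V : Type*} (F : V → V → Prop) (A : Finset V) :
    pairs F A = ∑ x ∈ A, mdDeg F A x := by
  classical
  unfold pairs mdDeg
  rw [Finset.card_filter, Finset.sum_product]
  refine Finset.sum_congr rfl fun x _ => ?_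
  rw [Finset.card_filter]

private lemma md_pairs_insert {V : Type*} [DecidableEq V] (F : V → V → Prop)
    (hF : ∀ a b, F a b → F b a) (B : Finset V) (x : V) (hx : x ∉ B) :
    pairs F (insert x B) = pairs F B + 2 * mdDeg F (insert x B) x := by
  classical
  rw [md_pairs_eq, md_pairs_eq, Finset.sum_insert hx]
  have h1 : ∀ a ∈ B, mdDeg F (insert x B) a = mdDeg F B a + if a ≠ x ∧ F a x then 1 else 0 := by
    intro a _
    unfold mdDeg
    rw [Finset.card_filter, Finset.card_filter, Finset.sum_insert hx, add_comm]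
    congr!
  rw [Finset.sum_congr rfl h1, Finset.sum_add_distrib]
  have h2 : (∑ a ∈ B, if a ≠ x ∧ F a x then 1 else 0) = mdDeg F (insert x B) x := by
    unfold mdDeg
    rw [Finset.card_filter, Finset.sum_insert hx]
    simp only [ne_eq, not_true_eq_false, false_and, if_false, zero_add]
    refine Finset.sum_congr rfl fun a _ => ?_
    by_cases h : a ≠ x ∧ F a x
    · have h' : x ≠ a ∧ F x a := ⟨fun e => h.1 e.symm, hF _ _ h.2⟩
      rw [if_pos h, if_pos h']
    · have h' : ¬ (x ≠ a ∧ F x a) := fun e => h ⟨fun e' => e.1 e'.symm, hF _ _ e.2⟩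
      rw [if_neg h, if_neg h']
  rw [h2]
  ring

private lemma md_pairs_erase {V : Type*} [DecidableEq V] (F : V → V → Prop)
    (hF : ∀ a b, F a b → F b a) (A : Finset V) (x : V) (hx : x ∈ A) :
    pairs F A = pairs F (A.erase x) + 2 * mdDeg F A x := by
  have h := md_pairs_insert F hF (A.erase x) x (Finset.notMem_erase x A)
  rwa [Finset.insert_erase hx] at h

private lemma md_avg {V : Type*} [DecidableEq V] (F : V → V → Prop)
    (hF : ∀ a b, F a b → F b a) (A : Finset V) :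
    A.card * pairs F A = (∑ x ∈ A, pairs F (A.erase x)) + 2 * pairs F A := by
  have h : ∑ x ∈ A, pairs F A = ∑ x ∈ A, (pairs F (A.erase x) + 2 * mdDeg F A x) :=
    Finset.sum_congr rfl fun x hx => md_pairs_erase F hF A x hx
  rw [Finset.sum_add_distrib, ← Finset.mul_sum, ← md_pairs_eq, Finset.sum_const, smul_eq_mul] at h
  exact h

private lemma md_pairs_le {V : Type*} (F : V → V → Prop) (A : Finset V) :
    pairs F A ≤ A.card * (A.card - 1) := by
  classical
  rw [md_pairs_eq]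
  have : ∀ x ∈ A, mdDeg F A x ≤ A.card - 1 := by
    intro x hx
    unfold mdDeg
    rw [← Finset.card_erase_of_mem hx]
    refine Finset.card_le_card fun y hy => ?_
    rw [Finset.mem_filter] at hy
    exact Finset.mem_erase.2 ⟨fun e => hy.2.1 e.symm, hy.1⟩
  calc ∑ x ∈ A, mdDeg F A x ≤ ∑ _x ∈ A, (A.card - 1) := Finset.sum_le_sum this
    _ = A.card * (A.card - 1) := by rw [Finset.sum_const, smul_eq_mul]

private lemma md_min {V : Type*} [Infinite V] (F : V → V → Prop) :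
    ∃ m : ℕ → ℕ, (∀ k, ∃ A : Finset V, A.card = k ∧ pairs F A = m k) ∧
      ∀ A : Finset V, m A.card ≤ pairs F A := by
  have hne : ∀ k : ℕ, {n : ℕ | ∃ A : Finset V, A.card = k ∧ pairs F A = n}.Nonempty := by
    intro k
    obtain ⟨A, hA⟩ := Infinite.exists_subset_card_eq V k
    exact ⟨_, A, hA, rfl⟩
  refine ⟨fun k => sInf {n : ℕ | ∃ A : Finset V, A.card = k ∧ pairs F A = n}, ?_, ?_⟩
  · intro k
    exact Nat.sInf_mem (hne k)
  · intro A
    exact Nat.sInf_le ⟨A, rfl, rfl⟩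

private lemma md_mono {V : Type*} [Infinite V] (F : V → V → Prop)
    (hF : ∀ a b, F a b → F b a) (m : ℕ → ℕ)
    (h1 : ∀ k, ∃ A : Finset V, A.card = k ∧ pairs F A = m k)
    (h2 : ∀ A : Finset V, m A.card ≤ pairs F A) (k : ℕ) :
    (k + 3) * m (k + 2) ≤ (k + 1) * m (k + 3) := by
  classical
  obtain ⟨A, hA, hAm⟩ := h1 (k + 3)
  have h := md_avg F hF A
  have h3 : ∑ x ∈ A, m (k + 2) ≤ ∑ x ∈ A, pairs F (A.erase x) := by
    refine Finset.sum_le_sum fun x hx => ?_
    have := h2 (A.erase x)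
    rwa [Finset.card_erase_of_mem hx, hA] at this
  rw [Finset.sum_const, smul_eq_mul, hA] at h3
  rw [hA, hAm] at h
  nlinarith [h, h3]

/-- a bounded sequence cannot have all increments above `ε / (k + 3)` -/
private lemma md_harm (s : ℕ → ℝ) (B : ℝ) (hs : ∀ k, s k ≤ B) (ε : ℝ) (hε : 0 < ε) (K : ℕ) :
    ∃ k, K ≤ k ∧ ((k : ℝ) + 3) * (s (k + 1) - s k) ≤ ε := by
  by_contra hcon
  push Not at hcon
  have hstep : ∀ k, K ≤ k → s k + ε * (1 / ((k : ℝ) + 3)) ≤ s (k + 1) := by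
    intro k hk
    have h := hcon k hk
    have hp : (0 : ℝ) < (k : ℝ) + 3 := by positivity
    have : ε / ((k : ℝ) + 3) < s (k + 1) - s k := by
      rw [div_lt_iff₀ hp]
      linarith [mul_comm ((k : ℝ) + 3) (s (k + 1) - s k)]
    have h' : ε * (1 / ((k : ℝ) + 3)) = ε / ((k : ℝ) + 3) := by ring
    rw [h']
    linarith
  have hind : ∀ j : ℕ, s K + ε * ((∑ i ∈ Finset.range (K + j + 2), (1 / ((i : ℝ) + 1))) -
      ∑ i ∈ Finset.range (K + 2), (1 / ((i : ℝ) + 1))) ≤ s (K + j) := by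
    intro j
    induction j with
    | zero => simp
    | succ j ih =>
      have h := hstep (K + j) (by omega)
      have e : K + (j + 1) + 2 = (K + j + 2) + 1 := by ring
      rw [e, Finset.sum_range_succ]
      have e2 : ((K + j + 2 : ℕ) : ℝ) + 1 = ((K + j : ℕ) : ℝ) + 3 := by push_cast; ring
      rw [e2]
      have e3 : K + (j + 1) = K + j + 1 := by ring
      rw [e3]
      nlinarith [h, ih]
  have htend := Real.tendsto_sum_range_one_div_nat_succ_atTop
  rw [Filter.tendsto_atTop] at htend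
  have hev := htend ((B - s K) / ε + 1 + ∑ i ∈ Finset.range (K + 2), (1 / ((i : ℝ) + 1)))
  rw [Filter.eventually_atTop] at hev
  obtain ⟨N, hN⟩ := hev
  have h1 := hN (K + N + 2) (by omega)
  have h2 := hind N
  have h3 := hs (K + N)
  have h4 : ε * ((B - s K) / ε + 1) ≤ ε * ((∑ i ∈ Finset.range (K + N + 2), (1 / ((i : ℝ) + 1))) -
      ∑ i ∈ Finset.range (K + 2), (1 / ((i : ℝ) + 1))) :=
    mul_le_mul_of_nonneg_left (by linarith) hε.le
  have h5 : ε * ((B - s K) / ε + 1) = B - s K + ε := by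
    field_simp
  linarith

open Classical in
theorem minDeg {V : Type*} [Infinite V] (F : V → V → Prop) (hF : ∀ a b, F a b → F b a) (c : ℝ)
    (h : ¬ Dens F c) :
    ∃ ε : ℝ, 0 < ε ∧ ∀ k₀ : ℕ, ∃ A : Finset V, k₀ ≤ A.card ∧ ∀ x ∈ A,
      (((A.filter (fun y => x ≠ y ∧ F x y)).card : ℕ) : ℝ) ≤ (c - ε) * A.card := by
  obtain ⟨m, hm1, hm2⟩ := md_min F
  have hmono := md_mono F hF m hm1 hm2
  -- the failure of `Dens`
  unfold Dens at h
  push Not at h
  obtain ⟨ε, hε, hbad⟩ := h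
  -- the normalised minimum
  set s : ℕ → ℝ := fun k => (m (k + 2) : ℝ) / (((k : ℝ) + 2) * ((k : ℝ) + 1)) with hs_def
  have hs_mul : ∀ k : ℕ, (m (k + 2) : ℝ) = s k * (((k : ℝ) + 2) * ((k : ℝ) + 1)) := by
    intro k
    have hp : (0 : ℝ) < ((k : ℝ) + 2) * ((k : ℝ) + 1) := by positivity
    simp only [hs_def]
    rw [div_mul_cancel₀ _ hp.ne']
  have hs_nonneg : ∀ k, 0 ≤ s k := by
    intro k
    simp only [hs_def]
    positivity
  have hs_mono : ∀ k, s k ≤ s (k + 1) := by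
    intro k
    have h := hmono k
    have h' : ((k : ℝ) + 3) * (m (k + 2) : ℝ) ≤ ((k : ℝ) + 1) * (m (k + 3) : ℝ) := by
      exact_mod_cast h
    have h1 := hs_mul k
    have h2 := hs_mul (k + 1)
    have e : k + 1 + 2 = k + 3 := by ring
    rw [e] at h2
    push_cast at h2
    rw [h1, h2] at h'
    have hp : (0 : ℝ) < ((k : ℝ) + 3) * ((k : ℝ) + 2) * ((k : ℝ) + 1) := by positivity
    have h3 : s k * (((k : ℝ) + 3) * ((k : ℝ) + 2) * ((k : ℝ) + 1)) ≤
        s (k + 1) * (((k : ℝ) + 3) * ((k : ℝ) + 2) * ((k : ℝ) + 1)) := by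
      calc s k * (((k : ℝ) + 3) * ((k : ℝ) + 2) * ((k : ℝ) + 1))
          = ((k : ℝ) + 3) * (s k * (((k : ℝ) + 2) * ((k : ℝ) + 1))) := by ring
        _ ≤ _ := h'
        _ = _ := by ring
    exact le_of_mul_le_mul_right h3 hp
  have hs_monotone : Monotone s := monotone_nat_of_le_succ hs_mono
  have hs_le_one : ∀ k, s k ≤ 1 := by
    intro k
    obtain ⟨A, hA, hAm⟩ := hm1 (k + 2)
    have h := md_pairs_le F A
    rw [hA, hAm] at h
    have h' : (m (k + 2) : ℝ) ≤ ((k : ℝ) + 2) * ((k : ℝ) + 1) := by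
      have e : k + 2 - 1 = k + 1 := by omega
      rw [e] at h
      exact_mod_cast h
    have hp : (0 : ℝ) < ((k : ℝ) + 2) * ((k : ℝ) + 1) := by positivity
    simp only [hs_def]
    rw [div_le_one hp]
    exact h'
  -- all `s k` are at most `c - ε/2`
  have hs_bound : ∀ k, s k ≤ c - ε / 2 := by
    intro k
    obtain ⟨N, hN⟩ := exists_nat_gt (2 * |c| / ε)
    obtain ⟨A, hA, hAp⟩ := hbad (k + 2 + N + 2)
    obtain ⟨j, hj⟩ : ∃ j, A.card = j + 2 := ⟨A.card - 2, by omega⟩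
    have hkj : k ≤ j := by omega
    have hNj : N ≤ j := by omega
    have h1 : (m (j + 2) : ℝ) ≤ (pairs F A : ℝ) := by
      have := hm2 A
      rw [hj] at this
      exact_mod_cast this
    rw [hs_mul j] at h1
    rw [hj] at hAp
    push_cast at hAp
    have h2 : s j * (((j : ℝ) + 2) * ((j : ℝ) + 1)) < (c - ε) * ((j : ℝ) + 2) ^ 2 :=
      lt_of_le_of_lt h1 hAp
    have hp2 : (0 : ℝ) < (j : ℝ) + 2 := by positivity
    have h3 : s j * ((j : ℝ) + 1) < (c - ε) * ((j : ℝ) + 2) := by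
      have : (s j * ((j : ℝ) + 1)) * ((j : ℝ) + 2) < ((c - ε) * ((j : ℝ) + 2)) * ((j : ℝ) + 2) := by
        calc (s j * ((j : ℝ) + 1)) * ((j : ℝ) + 2) = s j * (((j : ℝ) + 2) * ((j : ℝ) + 1)) := by ring
          _ < _ := h2
          _ = _ := by ring
      exact lt_of_mul_lt_mul_right this hp2.le
    have h4 : 2 * |c| < ε * (j : ℝ) := by
      have : 2 * |c| < ε * (N : ℝ) := by
        rw [div_lt_iff₀ hε] at hN
        linarith [mul_comm (N : ℝ) ε]
      have h5 : ε * (N : ℝ) ≤ ε * (j : ℝ) :=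
        mul_le_mul_of_nonneg_left (by exact_mod_cast hNj) hε.le
      linarith
    have h5 : c ≤ |c| := le_abs_self c
    have h6 : (c - ε) * ((j : ℝ) + 2) ≤ (c - ε / 2) * ((j : ℝ) + 1) := by
      nlinarith
    have hp1 : (0 : ℝ) < (j : ℝ) + 1 := by positivity
    have h7 : s j < c - ε / 2 := by
      have : s j * ((j : ℝ) + 1) < (c - ε / 2) * ((j : ℝ) + 1) := lt_of_lt_of_le h3 h6
      exact lt_of_mul_lt_mul_right this hp1.le
    exact le_trans (hs_monotone hkj) h7.le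
  refine ⟨ε / 4, by positivity, fun k₀ => ?_⟩
  obtain ⟨k, hk, hinc⟩ := md_harm s 1 hs_le_one (ε / 2) (by positivity) k₀
  obtain ⟨A, hA, hAm⟩ := hm1 (k + 3)
  refine ⟨A, by omega, fun x hx => ?_⟩
  have hdeg := md_pairs_erase F hF A x hx
  have h1 := hm2 (A.erase x)
  rw [Finset.card_erase_of_mem hx, hA] at h1
  have e : k + 3 - 1 = k + 2 := by omega
  rw [e] at h1
  have h2 : m (k + 2) + 2 * mdDeg F A x ≤ m (k + 3) := by
    rw [← hAm, hdeg]
    omega
  have h3 : (m (k + 2) : ℝ) + 2 * (mdDeg F A x : ℝ) ≤ (m (k + 3) : ℝ) := by exact_mod_cast h2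
  have h4 := hs_mul k
  have h5 := hs_mul (k + 1)
  have e2 : k + 1 + 2 = k + 3 := by ring
  rw [e2] at h5
  push_cast at h5
  rw [h4, h5] at h3
  have h6 := hs_bound k
  have h7 := hs_nonneg k
  have h8 : (2 : ℝ) * (mdDeg F A x : ℝ) ≤ ((k : ℝ) + 2) * (2 * c - ε / 2) := by
    have hk2 : (0 : ℝ) < (k : ℝ) + 2 := by positivity
    have h9 : ((k : ℝ) + 3) * (s (k + 1) - s k) + 2 * s k ≤ 2 * c - ε / 2 := by linarith
    calc (2 : ℝ) * (mdDeg F A x : ℝ)
        ≤ s (k + 1) * (((k : ℝ) + 1 + 2) * ((k : ℝ) + 1 + 1)) - s k * (((k : ℝ) + 2) * ((k : ℝ) + 1)) := by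
          linarith
      _ = ((k : ℝ) + 2) * (((k : ℝ) + 3) * (s (k + 1) - s k) + 2 * s k) := by ring
      _ ≤ _ := mul_le_mul_of_nonneg_left h9 hk2.le
  have h10 : (mdDeg F A x : ℝ) ≤ (c - ε / 4) * ((k : ℝ) + 3) := by
    nlinarith
  have h11 : ((A.filter (fun y => x ≠ y ∧ F x y)).card : ℝ) = (mdDeg F A x : ℝ) := by
    unfold mdDeg
    congr!
  rw [h11, hA]
  push_cast
  exact h10

end BVD
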