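import Pool.Agent.helper24.BVD.Ramsey
import Pool.Agent.helper24.BVD.MinDeg
import Pool.Agent.helper24.BVD.CountClq
import Pool.Agent.helper24.BVD.Erdos

/-!
# BVD-Both: two relations of density 1/4 meet with density at least 1/69

PROOF.  Let `F a b = G₁ a b ∧ G₂ a b` and suppose `¬ Dens F (1/69)`.  `minDeg` (`c = 1/69`) gives `ε > 0` and
arbitrarily large `A` with all `F`-degrees `≤ (1/69 - ε)|A|`; `countClq` (`r = 69`): at least `c₀ |A|^70` of
the 70-tuples are cliques for `¬ F`, `c₀ = (69 ε/2)^70`.  By `ramsey_tuple` each of them has an injective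
`f : Fin 5 → Fin 70` such that `x ∘ f` is a clique for `¬ G₁` or for `¬ G₂`; pigeonhole over the at most
`2 * 70^5` possibilities: for one `i ∈ {1,2}` and one `f` at least `c₀/(2*70^5) |A|^70` tuples; each 5-tuple `z`
equals `x ∘ f` for at most `|A|^65` tuples `x`; so at least `c₁ |A|^5` 5-tuples are cliques for `¬ G_i`.
Apply `Dens G_i (1/4)` with `ε = 1/100`: `k₁`.  Apply `erdos` with `r = 5`, `t = k₁ + 1`, `c = c₁` (for `|A|`
large; `i` can be chosen independent of `A`, or take the maximum of the two `k₁` first): `S_0,...,S_4` with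
`t` elements each, all transversals in `T`, hence pairwise disjoint and no `G_i`-pair between different
`S_j`.  Their union `U` has `5t ≥ k₁` elements and at most `5 t²` ordered `G_i`-pairs, but
`(1/4 - 1/100) 25 t² = 6 t² > 5 t²`.  Contradiction.
-/

open Finset

namespace BVD

open Classical in
/-- the five-tuples in `A` which are cliques for the complement of `G` -/
private noncomputable def both_TT {V : Type} (G : V → V → Prop) (A : Finset V) :
    Finset (Fin 5 → V) :=
  (Fintype.piFinset (fun _ : Fin 5 => A)).filter (fun x => Clq (fun a b => ¬ G a b) x)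

private theorem both_contra {V : Type} (G : V → V → Prop) (hd : Dens G (1 / 4)) (c : ℝ)
    (hc : 0 < c) :
    ∃ k₀ : ℕ, ∀ A : Finset V, k₀ ≤ A.card →
      ((both_TT G A).card : ℝ) < c * (A.card : ℝ) ^ 5 := by
  classical
  obtain ⟨k₁, hk₁⟩ := hd (1 / 100) (by norm_num)
  obtain ⟨k₀, hk₀⟩ := erdos 5 (k₁ + 1) c hc
  refine ⟨k₀, fun A hA => ?_⟩
  by_contra hcon
  push Not at hcon
  obtain ⟨S, hS, hT⟩ := hk₀ A (both_TT G A) (Finset.filter_subset _ _) hA hcon
  have hne : ∀ i, (S i).Nonempty := fun i => Finset.card_pos.1 (by rw [(hS i).1]; omega)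
  choose z hz using hne
  have hpair : ∀ i j, i ≠ j → ∀ a ∈ S i, ∀ b ∈ S j, a ≠ b ∧ ¬ G a b := by
    intro i j hij a ha b hb
    have hx : ∀ k, Function.update (Function.update z i a) j b k ∈ S k := by
      intro k
      by_cases hkj : k = j
      · subst hkj
        simpa using hb
      · rw [Function.update_of_ne hkj]
        by_cases hki : k = i
        · subst hki
          simpa using ha
        · rw [Function.update_of_ne hki]
          exact hz k
    have h := hT _ hx
    rw [both_TT, Finset.mem_filter] at h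
    have h2 := h.2 i j hij
    rw [Function.update_of_ne hij, Function.update_self, Function.update_self] at h2
    exact h2
  have hU : (Finset.univ.biUnion S).card = 5 * (k₁ + 1) := by
    rw [Finset.card_biUnion]
    · rw [Finset.sum_congr rfl (fun i _ => (hS i).1)]
      simp
    · intro i _ j _ hij
      rw [Function.onFun, Finset.disjoint_left]
      intro a ha hb
      exact (hpair i j hij a ha a hb).1 rfl
  have hpairs : pairs G (Finset.univ.biUnion S) ≤ 5 * (k₁ + 1) ^ 2 := by
    unfold pairs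
    have hsub : (((Finset.univ.biUnion S) ×ˢ (Finset.univ.biUnion S)).filter
        (fun p => p.1 ≠ p.2 ∧ G p.1 p.2)) ⊆
        (Finset.univ : Finset (Fin 5)).biUnion (fun i => S i ×ˢ S i) := by
      intro p hp
      rw [Finset.mem_filter, Finset.mem_product, Finset.mem_biUnion, Finset.mem_biUnion] at hp
      obtain ⟨⟨⟨i, _, hi⟩, ⟨j, _, hj⟩⟩, _, hG⟩ := hp
      rw [Finset.mem_biUnion]
      by_cases hij : i = j
      · subst hij
        exact ⟨i, Finset.mem_univ _, Finset.mem_product.2 ⟨hi, hj⟩⟩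
      · exact absurd hG (hpair i j hij _ hi _ hj).2
    refine le_trans (Finset.card_le_card hsub) (le_trans Finset.card_biUnion_le ?_)
    have h : ∀ i ∈ (Finset.univ : Finset (Fin 5)), (S i ×ˢ S i).card = (k₁ + 1) ^ 2 := by
      intro i _
      rw [Finset.card_product, (hS i).1]
      ring
    rw [Finset.sum_congr rfl h]
    simp
  have h := hk₁ (Finset.univ.biUnion S) (by rw [hU]; omega)
  rw [hU] at h
  have hp2 : ((pairs G (Finset.univ.biUnion S) : ℕ) : ℝ) ≤ 5 * ((k₁ : ℝ) + 1) ^ 2 := by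
    exact_mod_cast hpairs
  push_cast at h
  have hk : (0 : ℝ) ≤ (k₁ : ℝ) := Nat.cast_nonneg _
  nlinarith [h, hp2, hk, sq_nonneg ((k₁ : ℝ))]

open Classical in
private theorem both_count {V : Type} (A : Finset V) (T : Finset (Fin 5 → V))
    (f : Fin 5 → Fin 70) (hf : Function.Injective f) :
    ((Fintype.piFinset (fun _ : Fin 70 => A)).filter (fun x => x ∘ f ∈ T)).card
      ≤ T.card * A.card ^ 65 := by
  have hcard : Fintype.card {j : Fin 70 // j ∉ Set.range f} = 65 := by
    have h1 := Fintype.card_subtype_compl (fun j : Fin 70 => j ∈ Set.range f)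
    have h2 : Fintype.card {j : Fin 70 // j ∈ Set.range f} = 5 := by
      have h3 := Set.card_range_of_injective hf
      rw [Fintype.card_fin] at h3
      exact h3
    rw [h2, Fintype.card_fin] at h1
    exact h1
  have h4 : (T ×ˢ Fintype.piFinset (fun _ : {j : Fin 70 // j ∉ Set.range f} => A)).card
      = T.card * A.card ^ 65 := by
    rw [Finset.card_product, Fintype.card_piFinset, Finset.prod_const, Finset.card_univ, hcard]
  rw [← h4]
  apply Finset.card_le_card_of_injOn
    (fun x => (x ∘ f, fun j : {j : Fin 70 // j ∉ Set.range f} => x j.1))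
  · intro x hx
    rw [Finset.mem_coe, Finset.mem_filter, Fintype.mem_piFinset] at hx
    rw [Finset.mem_coe, Finset.mem_product, Fintype.mem_piFinset]
    exact ⟨hx.2, fun j => hx.1 j.1⟩
  · intro x _ y _ hxy
    have h1 : x ∘ f = y ∘ f := congrArg Prod.fst hxy
    have h2 : (fun j : {j : Fin 70 // j ∉ Set.range f} => x j.1)
        = fun j : {j : Fin 70 // j ∉ Set.range f} => y j.1 := congrArg Prod.snd hxy
    funext j
    by_cases hj : j ∈ Set.range f
    · obtain ⟨i, rfl⟩ := hj
      exact congrFun h1 i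
    · exact congrFun h2 ⟨j, hj⟩

open Classical in
/-- the injective maps -/
private noncomputable def both_I : Finset (Fin 5 → Fin 70) :=
  Finset.filter (fun f : Fin 5 → Fin 70 => Function.Injective f) Finset.univ

private theorem mem_both_I {f : Fin 5 → Fin 70} : f ∈ both_I ↔ Function.Injective f := by
  unfold both_I
  simp only [Finset.mem_filter, Finset.mem_univ, true_and]

private theorem card_both_I : both_I.card ≤ 70 ^ 5 := by
  unfold both_I
  refine le_trans (Finset.card_filter_le _ _) ?_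
  rw [Finset.card_univ, Fintype.card_fun, Fintype.card_fin, Fintype.card_fin]

set_option linter.constructorNameAsVariable false in
open Classical in
private theorem both_cover {V : Type} (G₁ G₂ : V → V → Prop) (h1 : ∀ a b, G₁ a b → G₁ b a)
    (h2 : ∀ a b, G₂ a b → G₂ b a) (A : Finset V) :
    ((Fintype.piFinset (fun _ : Fin 70 => A)).filter
      (fun x => Clq (fun a b => ¬ (G₁ a b ∧ G₂ a b)) x)).card
      ≤ 70 ^ 5 * ((both_TT G₁ A).card * A.card ^ 65)
        + 70 ^ 5 * ((both_TT G₂ A).card * A.card ^ 65) := by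
  have hsub : ((Fintype.piFinset (fun _ : Fin 70 => A)).filter
      (fun x => Clq (fun a b => ¬ (G₁ a b ∧ G₂ a b)) x)) ⊆
      (both_I.biUnion
        (fun f => (Fintype.piFinset (fun _ : Fin 70 => A)).filter
          (fun x => x ∘ f ∈ both_TT G₁ A))) ∪
      (both_I.biUnion
        (fun f => (Fintype.piFinset (fun _ : Fin 70 => A)).filter
          (fun x => x ∘ f ∈ both_TT G₂ A))) := by
    intro x hx
    rw [Finset.mem_filter] at hx
    have hxA := Fintype.mem_piFinset.1 hx.1
    rw [Finset.mem_union]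
    rcases ramsey_tuple G₁ G₂ h1 h2 x hx.2 with ⟨f, hf, hc⟩ | ⟨f, hf, hc⟩
    · left
      rw [Finset.mem_biUnion]
      refine ⟨f, ?_, ?_⟩
      · rw [mem_both_I]
        exact hf
      · rw [Finset.mem_filter]
        refine ⟨hx.1, ?_⟩
        rw [both_TT, Finset.mem_filter, Fintype.mem_piFinset]
        exact ⟨fun i => hxA (f i), hc⟩
    · right
      rw [Finset.mem_biUnion]
      refine ⟨f, ?_, ?_⟩
      · rw [mem_both_I]
        exact hf
      · rw [Finset.mem_filter]
        refine ⟨hx.1, ?_⟩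
        rw [both_TT, Finset.mem_filter, Fintype.mem_piFinset]
        exact ⟨fun i => hxA (f i), hc⟩
  have hbound : ∀ T : Finset (Fin 5 → V),
      (both_I.biUnion
        (fun f => (Fintype.piFinset (fun _ : Fin 70 => A)).filter
          (fun x => x ∘ f ∈ T))).card ≤ 70 ^ 5 * (T.card * A.card ^ 65) := by
    intro T
    refine le_trans Finset.card_biUnion_le ?_
    refine le_trans (Finset.sum_le_card_nsmul _ _ (T.card * A.card ^ 65) ?_) ?_
    · intro f hf
      rw [mem_both_I] at hf
      exact both_count A T f hf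
    · rw [smul_eq_mul]
      exact Nat.mul_le_mul_right _ card_both_I
  refine le_trans (Finset.card_le_card hsub) (le_trans (Finset.card_union_le _ _) ?_)
  exact Nat.add_le_add (hbound _) (hbound _)

theorem both {V : Type} [Infinite V] (G₁ G₂ : V → V → Prop) (h1 : ∀ a b, G₁ a b → G₁ b a)
    (h2 : ∀ a b, G₂ a b → G₂ b a) (hd1 : Dens G₁ (1 / 4)) (hd2 : Dens G₂ (1 / 4)) :
    Dens (fun a b => G₁ a b ∧ G₂ a b) (1 / 69) := by
  classical
  by_contra hcon
  have hF : ∀ a b, (G₁ a b ∧ G₂ a b) → (G₁ b a ∧ G₂ b a) :=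
    fun a b h => ⟨h1 a b h.1, h2 a b h.2⟩
  obtain ⟨ε, hε, hA⟩ := minDeg (fun a b => G₁ a b ∧ G₂ a b) hF (1 / 69) hcon
  obtain ⟨c₀, hc₀⟩ : ∃ c₀ : ℝ, c₀ = (69 * ε / 2) ^ 70 := ⟨_, rfl⟩
  have hc₀pos : 0 < c₀ := by rw [hc₀]; positivity
  obtain ⟨n₁, hn₁⟩ := both_contra G₁ hd1 (c₀ / (2 * 70 ^ 5)) (by positivity)
  obtain ⟨n₂, hn₂⟩ := both_contra G₂ hd2 (c₀ / (2 * 70 ^ 5)) (by positivity)
  obtain ⟨A, hAc, hdeg⟩ := hA (n₁ + n₂ + ⌈2 / ε⌉₊ + 1)
  have hApos : 0 < A.card := by omega
  have hA2 : 2 / ε ≤ (A.card : ℝ) := by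
    refine le_trans (Nat.le_ceil _) ?_
    exact_mod_cast (by omega : ⌈2 / ε⌉₊ ≤ A.card)
  have hclq := countClq (fun a b => G₁ a b ∧ G₂ a b) hF 69 (by norm_num) ε hε A hA2 hApos
    (by
      intro x hx
      have h := hdeg x hx
      push_cast at h ⊢
      exact h)
  have e1 := hn₁ A (by omega)
  have e2 := hn₂ A (by omega)
  have hcov := both_cover G₁ G₂ h1 h2 A
  have hcovR : (((Fintype.piFinset (fun _ : Fin 70 => A)).filter
      (fun x => Clq (fun a b => ¬ (G₁ a b ∧ G₂ a b)) x)).card : ℝ)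
      ≤ 70 ^ 5 * (((both_TT G₁ A).card : ℝ) * (A.card : ℝ) ^ 65)
        + 70 ^ 5 * (((both_TT G₂ A).card : ℝ) * (A.card : ℝ) ^ 65) := by
    exact_mod_cast hcov
  have hk : (0 : ℝ) < (A.card : ℝ) := by exact_mod_cast hApos
  have hpow : (0 : ℝ) < (A.card : ℝ) ^ 65 := by positivity
  have hl : ((69 : ℕ) * ε / 2 * (A.card : ℝ)) ^ (69 + 1) = c₀ * (A.card : ℝ) ^ 70 := by
    rw [hc₀, mul_pow]
    norm_num
  have hA70 : (A.card : ℝ) ^ 70 = (A.card : ℝ) ^ 5 * (A.card : ℝ) ^ 65 := by
    rw [← pow_add]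
  have hmain : c₀ * ((A.card : ℝ) ^ 5 * (A.card : ℝ) ^ 65)
      ≤ 70 ^ 5 * (((both_TT G₁ A).card : ℝ) * (A.card : ℝ) ^ 65)
        + 70 ^ 5 * (((both_TT G₂ A).card : ℝ) * (A.card : ℝ) ^ 65) := by
    rw [← hA70, ← hl]
    exact le_trans hclq hcovR
  have f1 := mul_lt_mul_of_pos_right e1 hpow
  have f2 := mul_lt_mul_of_pos_right e2 hpow
  have h3 : c₀ * ((A.card : ℝ) ^ 5 * (A.card : ℝ) ^ 65)
      = 70 ^ 5 * (c₀ / (2 * 70 ^ 5) * (A.card : ℝ) ^ 5 * (A.card : ℝ) ^ 65)
        + 70 ^ 5 * (c₀ / (2 * 70 ^ 5) * (A.card : ℝ) ^ 5 * (A.card : ℝ) ^ 65) := by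
    field_simp
    ring
  linarith

end BVD
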