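import Mathlib

/-!
# BVD: combinatorics for MP_81c801 (deductions from the pair density theorem)

`Dens G c`: every large finite set of vertices spans at least `(c - ε) |A|²` ordered pairs of the
relation `G` (at distinct vertices).
-/

open Finset

namespace BVD

variable {V : Type*}

open Classical in
/-- Number of ordered pairs of distinct elements of `A` in relation `G`. -/
noncomputable def pairs (G : V → V → Prop) (A : Finset V) : ℕ :=
  ((A ×ˢ A).filter (fun p => p.1 ≠ p.2 ∧ G p.1 p.2)).card

/-- Every large finite set spans at least `(c - ε)|A|²` ordered pairs. -/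
def Dens (G : V → V → Prop) (c : ℝ) : Prop :=
  ∀ ε : ℝ, 0 < ε → ∃ k₀ : ℕ, ∀ A : Finset V, k₀ ≤ A.card →
    (c - ε) * (A.card : ℝ) ^ 2 ≤ pairs G A

/-- A tuple is a clique for `F`: pairwise distinct and pairwise in relation. -/
def Clq (F : V → V → Prop) {r : ℕ} (x : Fin r → V) : Prop :=
  ∀ i j : Fin r, i ≠ j → x i ≠ x j ∧ F (x i) (x j)

end BVD
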