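import Pool.Agent.helper24.BVD.Final

/-!
# BVD-FinMult: finitely many integer multipliers for all positive rationals
-/

open Finset

namespace BVD

/-- `r` satisfies both assertions of Q1. -/
def RepB (r : ℚ) : Prop := RepP r ∧ RepM r

theorem repP_one : RepP 1 := by
  have h : Set.Infinite {p : ℕ | p.Prime} := Nat.infinite_setOfPred_prime
  have h2 := h.image (f := fun p : ℕ => ((p, p) : ℕ × ℕ))
    (fun a _ b _ hab => (Prod.mk.inj hab).1)
  refine h2.mono ?_
  rintro x ⟨p, hp, rfl⟩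
  have hp' : p.Prime := hp
  refine ⟨hp', hp', ?_⟩
  have : ((p : ℚ) + 1) ≠ 0 := by positivity
  exact div_self this

theorem repM_one : RepM 1 := by
  have h : Set.Infinite {p : ℕ | p.Prime} := Nat.infinite_setOfPred_prime
  have h2 := h.image (f := fun p : ℕ => ((p, p) : ℕ × ℕ))
    (fun a _ b _ hab => (Prod.mk.inj hab).1)
  refine h2.mono ?_
  rintro x ⟨p, hp, rfl⟩
  have hp' : p.Prime := hp
  refine ⟨hp', hp', ?_⟩
  have h1 : (1 : ℚ) < p := by exact_mod_cast hp'.one_lt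
  have : ((p : ℚ) - 1) ≠ 0 := by linarith
  exact div_self this

/-- A finite set of positive rationals without a good ratio has fewer than `k` elements. -/
theorem repB_ramsey (hPD : PDStmt) : ∃ k : ℕ, ∀ A : Finset Qpos, k ≤ A.card →
    ∃ a ∈ A, ∃ b ∈ A, a ≠ b ∧ RepB (a.1 / b.1) := by
  classical
  obtain ⟨k₀, hk⟩ := dens_both hPD (1 / 138) (by norm_num)
  refine ⟨k₀ + 1, ?_⟩
  intro A hA
  have h1 := hk A (by omega)
  have h2 : (0 : ℝ) < (1 / 69 - 1 / 138) * (A.card : ℝ) ^ 2 := by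
    have : (0 : ℝ) < (A.card : ℝ) := by exact_mod_cast (by omega : 0 < A.card)
    positivity
  have h3 : (0 : ℝ) < (pairs (fun r s => GP r s ∧ GM r s) A : ℝ) := lt_of_lt_of_le h2 h1
  have h4 : 0 < pairs (fun r s => GP r s ∧ GM r s) A := by exact_mod_cast h3
  unfold pairs at h4
  obtain ⟨p, hp⟩ := Finset.card_pos.mp h4
  rw [Ratio_mem_filter] at hp
  obtain ⟨hp1, hp2, hp3⟩ := hp
  obtain ⟨hpa, hpb⟩ := Finset.mem_product.mp hp1
  exact ⟨p.1, hpa, p.2, hpb, hp2, hp3⟩

/-- If no finite set of integer multipliers works, there are arbitrarily large finite sets of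
positive rationals without a good ratio. -/
theorem repB_grow (h : ∀ D : Finset ℕ, (∀ d ∈ D, 0 < d) → ∃ r : ℚ, 0 < r ∧
    ∀ d ∈ D, ¬ RepB ((d : ℚ) * r)) (n : ℕ) :
    ∃ A : Finset Qpos, A.card = n ∧ ∀ a ∈ A, ∀ b ∈ A, a ≠ b → ¬ RepB (a.1 / b.1) := by
  classical
  induction n with
  | zero => exact ⟨∅, rfl, by simp⟩
  | succ n ih =>
    obtain ⟨A, hA, hgood⟩ := ih
    -- the integer `m = ∏ num`
    have hm : ∀ s : Qpos, 0 < s.1.num.natAbs := by
      intro s
      have h1 : 0 < s.1.num := Rat.num_pos.mpr s.2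
      omega
    have hms : ∀ s ∈ A, ∃ d : ℕ, 0 < d ∧
        ((∏ t ∈ A, t.1.num.natAbs : ℕ) : ℚ) = d * s.1 := by
      intro s hs
      obtain ⟨e, he⟩ := Finset.dvd_prod_of_mem (fun t : Qpos => t.1.num.natAbs) hs
      have hpos : 0 < ∏ t ∈ A, t.1.num.natAbs := Finset.prod_pos (fun t _ => hm t)
      have he0 : 0 < e := by
        rcases Nat.eq_zero_or_pos e with h0 | h0
        · rw [he, h0, mul_zero] at hpos
          exact absurd hpos (lt_irrefl _)
        · exact h0
      refine ⟨e * s.1.den, Nat.mul_pos he0 s.1.den_pos, ?_⟩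
      rw [he]
      have hnum : 0 < s.1.num := Rat.num_pos.mpr s.2
      have h1 : ((s.1.num.natAbs : ℕ) : ℚ) = (s.1.num : ℚ) := by
        have : ((s.1.num.natAbs : ℕ) : ℤ) = s.1.num := Int.natAbs_of_nonneg hnum.le
        rw [← Int.cast_natCast, this]
      push_cast
      rw [h1, ← Rat.mul_den_eq_num]
      ring
    choose! d hd0 hd using hms
    obtain ⟨r, hr, hbad⟩ := h (A.image d) (by
      intro e he
      obtain ⟨s, hs, rfl⟩ := Finset.mem_image.mp he
      exact hd0 s hs)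
    have hmq : (0 : ℚ) < ((∏ t ∈ A, t.1.num.natAbs : ℕ) : ℚ) := by
      exact_mod_cast Finset.prod_pos (fun t _ => hm t)
    let x : Qpos := ⟨((∏ t ∈ A, t.1.num.natAbs : ℕ) : ℚ) * r, mul_pos hmq hr⟩
    have hx : ∀ s ∈ A, ¬ RepB (x.1 / s.1) := by
      intro s hs
      have h1 := hbad (d s) (Finset.mem_image_of_mem d hs)
      have hs0 : (s.1 : ℚ) ≠ 0 := s.2.ne'
      have h2 : x.1 / s.1 = (d s : ℚ) * r := by
        show ((∏ t ∈ A, t.1.num.natAbs : ℕ) : ℚ) * r / s.1 = (d s : ℚ) * r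
        rw [hd s hs]
        field_simp
      rw [h2]
      exact h1
    have hinv : ∀ s ∈ A, ¬ RepB (s.1 / x.1) := by
      intro s hs hrep
      apply hx s hs
      have h1 : x.1 / s.1 = (s.1 / x.1)⁻¹ := by rw [inv_div]
      rw [h1]
      exact ⟨RepP_inv hrep.1, RepM_inv hrep.2⟩
    have hxA : x ∉ A := by
      intro hxA
      apply hx x hxA
      rw [div_self x.2.ne']
      exact ⟨repP_one, repM_one⟩
    refine ⟨insert x A, ?_, ?_⟩
    · rw [Finset.card_insert_of_notMem hxA, hA]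
    · intro a ha b hb hab
      rcases Finset.mem_insert.mp ha with rfl | ha
      · rcases Finset.mem_insert.mp hb with rfl | hb
        · exact absurd rfl hab
        · exact hx b hb
      · rcases Finset.mem_insert.mp hb with rfl | hb
        · exact hinv a ha
        · exact hgood a ha b hb hab

/-- Finitely many integer multipliers suffice for all positive rationals. -/
theorem finMult (hPD : PDStmt) :
    ∃ D : Finset ℕ, (∀ d ∈ D, 0 < d) ∧ ∀ r : ℚ, 0 < r → ∃ d ∈ D,
      {x : ℕ × ℕ | x.1.Prime ∧ x.2.Prime ∧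
        ((x.1 : ℚ) + 1) / ((x.2 : ℚ) + 1) = (d : ℚ) * r}.Infinite ∧
      {x : ℕ × ℕ | x.1.Prime ∧ x.2.Prime ∧
        ((x.1 : ℚ) - 1) / ((x.2 : ℚ) - 1) = (d : ℚ) * r}.Infinite := by
  by_contra hcon
  obtain ⟨k, hk⟩ := repB_ramsey hPD
  obtain ⟨A, hA, hgood⟩ := repB_grow (by
    intro D hD
    by_contra hc
    apply hcon
    refine ⟨D, hD, fun r hr => ?_⟩
    by_contra hc2
    apply hc
    refine ⟨r, hr, fun d hd hrep => ?_⟩
    exact hc2 ⟨d, hd, hrep.1, hrep.2⟩) k
  obtain ⟨a, ha, b, hb, hab, hrep⟩ := hk A hA.ge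
  exact hgood a ha b hb hab hrep

end BVD
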