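import Pool.Agent.helper24.BVD.Ratio

/-!
# BVD-Final: the three statements on MP_81c801, conditional on `PDStmt`
-/

open Finset

namespace BVD

/-- Transport of `Dens` from `Qpos` to finite sets of positive rationals. -/
theorem dens_rat (G : Qpos → Qpos → Prop) (S : ℚ → Prop) (c : ℝ)
    (hG : ∀ r s : Qpos, G r s → S (r.1 / s.1)) (hd : Dens G c) (ε : ℝ) (hε : 0 < ε) :
    ∃ K : ℕ, ∀ A : Finset ℚ, (∀ r ∈ A, 0 < r) → K ≤ A.card →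
      (c - ε) * (A.card : ℝ) ^ 2 ≤
        (({p : ℚ × ℚ | p.1 ∈ A ∧ p.2 ∈ A ∧ p.1 ≠ p.2 ∧ S (p.1 / p.2)}).ncard : ℝ) := by
  classical
  obtain ⟨K, hK⟩ := hd ε hε
  refine ⟨K, fun A hA hKA => ?_⟩
  let B : Finset Qpos := A.attach.image (fun r => (⟨r.1, hA r.1 r.2⟩ : Qpos))
  have hB : B.card = A.card := by
    have hinj : Function.Injective (fun r : {x // x ∈ A} => (⟨r.1, hA r.1 r.2⟩ : Qpos)) := by
      intro r s hrs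
      have h1 : r.1 = s.1 := congrArg (fun x : Qpos => x.1) hrs
      exact Subtype.ext h1
    rw [Finset.card_image_of_injective _ hinj, Finset.card_attach]
  have hmem : ∀ r : Qpos, r ∈ B → r.1 ∈ A := by
    intro r hr
    obtain ⟨x, _, hx⟩ := Finset.mem_image.mp hr
    rw [← hx]
    exact x.2
  have h1 := hK B (by rw [hB]; exact hKA)
  rw [hB] at h1
  refine h1.trans ?_
  have hfin : ({p : ℚ × ℚ | p.1 ∈ A ∧ p.2 ∈ A ∧ p.1 ≠ p.2 ∧ S (p.1 / p.2)}).Finite := by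
    refine (A ×ˢ A).finite_toSet.subset ?_
    rintro p ⟨h1, h2, _⟩
    exact Finset.mem_coe.mpr (Finset.mem_product.mpr ⟨h1, h2⟩)
  have h2 : pairs G B ≤
      ({p : ℚ × ℚ | p.1 ∈ A ∧ p.2 ∈ A ∧ p.1 ≠ p.2 ∧ S (p.1 / p.2)}).ncard := by
    rw [pairs, ← Set.ncard_coe_finset]
    refine Set.ncard_le_ncard_of_injOn (fun p : Qpos × Qpos => (p.1.1, p.2.1)) ?_ ?_ hfin
    · intro p hp
      rw [Finset.mem_coe, Ratio_mem_filter] at hp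
      obtain ⟨hp1, hp2, hp3⟩ := hp
      obtain ⟨ha, hb⟩ := Finset.mem_product.mp hp1
      exact ⟨hmem _ ha, hmem _ hb, fun h => hp2 (Subtype.ext h), hG _ _ hp3⟩
    · intro p _ q _ hpq
      have h3 := Prod.mk.inj hpq
      exact Prod.ext (Subtype.ext h3.1) (Subtype.ext h3.2)
  exact_mod_cast h2

/-- H1. -/
theorem ratioDensity (hPD : PDStmt) (ε : ℝ) (hε : 0 < ε) :
    ∃ K : ℕ, ∀ s : ℤ, s = 1 ∨ s = -1 → ∀ A : Finset ℚ, (∀ r ∈ A, 0 < r) → K ≤ A.card →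
      (1 / 4 - ε) * (A.card : ℝ) ^ 2 ≤
        (({p : ℚ × ℚ | p.1 ∈ A ∧ p.2 ∈ A ∧ p.1 ≠ p.2 ∧
          {x : ℕ × ℕ | x.1.Prime ∧ x.2.Prime ∧
            ((x.1 : ℚ) + s) / ((x.2 : ℚ) + s) = p.1 / p.2}.Infinite}).ncard : ℝ) := by
  obtain ⟨K₁, h₁⟩ := dens_rat GP RepP (1 / 4) (fun _ _ h => h) (dens_GP hPD) ε hε
  obtain ⟨K₂, h₂⟩ := dens_rat GM RepM (1 / 4) (fun _ _ h => h) (dens_GM hPD) ε hε
  refine ⟨max K₁ K₂, ?_⟩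
  rintro s (rfl | rfl) A hA hK
  · refine (h₁ A hA ((le_max_left _ _).trans hK)).trans (le_of_eq ?_)
    have e : ({p : ℚ × ℚ | p.1 ∈ A ∧ p.2 ∈ A ∧ p.1 ≠ p.2 ∧ RepP (p.1 / p.2)}) =
        ({p : ℚ × ℚ | p.1 ∈ A ∧ p.2 ∈ A ∧ p.1 ≠ p.2 ∧
          {x : ℕ × ℕ | x.1.Prime ∧ x.2.Prime ∧
            ((x.1 : ℚ) + (1 : ℤ)) / ((x.2 : ℚ) + (1 : ℤ)) = p.1 / p.2}.Infinite}) := by
      unfold RepP
      push_cast
      rfl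
    rw [e]
  · refine (h₂ A hA ((le_max_right _ _).trans hK)).trans (le_of_eq ?_)
    have e : ({p : ℚ × ℚ | p.1 ∈ A ∧ p.2 ∈ A ∧ p.1 ≠ p.2 ∧ RepM (p.1 / p.2)}) =
        ({p : ℚ × ℚ | p.1 ∈ A ∧ p.2 ∈ A ∧ p.1 ≠ p.2 ∧
          {x : ℕ × ℕ | x.1.Prime ∧ x.2.Prime ∧
            ((x.1 : ℚ) + (-1 : ℤ)) / ((x.2 : ℚ) + (-1 : ℤ)) = p.1 / p.2}.Infinite}) := by
      unfold RepM
      push_cast
      simp only [sub_eq_add_neg]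
    rw [e]

/-- H2. -/
theorem bothDensity (hPD : PDStmt) (ε : ℝ) (hε : 0 < ε) :
    ∃ K : ℕ, ∀ A : Finset ℚ, (∀ r ∈ A, 0 < r) → K ≤ A.card →
      (1 / 69 - ε) * (A.card : ℝ) ^ 2 ≤
        (({p : ℚ × ℚ | p.1 ∈ A ∧ p.2 ∈ A ∧ p.1 ≠ p.2 ∧
          {x : ℕ × ℕ | x.1.Prime ∧ x.2.Prime ∧
            ((x.1 : ℚ) + 1) / ((x.2 : ℚ) + 1) = p.1 / p.2}.Infinite ∧
          {x : ℕ × ℕ | x.1.Prime ∧ x.2.Prime ∧
            ((x.1 : ℚ) - 1) / ((x.2 : ℚ) - 1) = p.1 / p.2}.Infinite}).ncard : ℝ) :=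
  dens_rat (fun r s => GP r s ∧ GM r s) (fun r => RepP r ∧ RepM r) (1 / 69) (fun _ _ h => h)
    (dens_both hPD) ε hε

/-- H3. -/
theorem syndeticQ1 (hPD : PDStmt) :
    ∃ D : Finset ℕ, (∀ d ∈ D, 0 < d) ∧ ∀ n : ℕ, 1 ≤ n → ∃ d ∈ D,
      {x : ℕ × ℕ | x.1.Prime ∧ x.2.Prime ∧
        ((x.1 : ℚ) + 1) / ((x.2 : ℚ) + 1) = ((d * n : ℕ) : ℚ)}.Infinite ∧
      {x : ℕ × ℕ | x.1.Prime ∧ x.2.Prime ∧
        ((x.1 : ℚ) - 1) / ((x.2 : ℚ) - 1) = ((d * n : ℕ) : ℚ)}.Infinite :=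
  syndetic hPD

end BVD
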