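import Pool.Agent.helper24.BVD.Defs
import Pool.Agent.helper24.BVD.Erdos

/-!
# BVD-KerPop: popular patterns and their blow-ups

PROOF of `popular`.  Suppose `Dens F d` fails, `F a b = (G₁ a b ∧ G₂ a b)`: there is `ε > 0` such that for every
`k₀` some `A` with at least `k₀` elements has `pairs F A < (d - ε) |A|²`.  As `pairs ≥ 0` and `|A|` can be taken
`≥ 1`, `d - ε > 0`.  Claim with `η = ε/2`.  Fix `r`, `t` (`r ≥ 1`; for `r = 0` take `S` = the empty function).
Put `δ = 1 - (d - ε)/(d - ε/2) > 0`, `c₁ = (δ/2) / 4^(r²)`; `k₀` large: at least the constant of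
`erdos r (t+1) c₁` (or `t`, see below) and at least `2 r² / δ + 1`.  Take `A` as above with `|A| ≥ k₀`.
Tuples: `Ω = Fintype.piFinset (fun _ : Fin r => A)`, `|Ω| = |A|^r`.  For a tuple `x` let `n(x)` be the number of
pairs `(i,j)`, `i ≠ j`, with `x i ≠ x j` and `F (x i) (x j)`.  Double counting: for fixed `i ≠ j` the number of
`x ∈ Ω` with `x i ≠ x j ∧ F (x i) (x j)` is `pairs F A * |A|^(r-2)`, so
`∑_{x ∈ Ω} n(x) = r (r-1) pairs F A |A|^(r-2) ≤ (d - ε) r² |A|^r`.
Hence (Markov) at most `((d-ε)/(d-ε/2)) |A|^r` tuples have `n(x) ≥ (d - ε/2) r²`, so at least `δ |A|^r` tuples have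
`n(x) < (d - ε/2) r²`.  At most `r² |A|^(r-1) ≤ (δ/2) |A|^r` tuples are not injective (for fixed `i ≠ j` the number
of `x ∈ Ω` with `x i = x j` is `|A|^(r-1)`).  So at least `(δ/2)|A|^r` tuples are injective with small `n(x)`.
Pattern: `pat x = fun i j => (decide (G₁ (x i) (x j)), decide (G₂ (x i) (x j)))`, an element of the finite type
`Fin r → Fin r → Bool × Bool` with `4^(r²)` elements; pigeonhole: some pattern `π` is taken by at least
`c₁ |A|^r` of these tuples, call the set `T`.  `erdos r t c₁` gives `S i ⊆ A` with `t` elements such that all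
transversals are in `T`.  (If `t = 0` use `t = 1` first and then the empty sets, or prove the case `t = 0`
separately: take `g₁ g₂ = False`... simplest: apply everything with `t + 1` and pass to subsets with `t`
elements, `Finset.exists_subset_card_eq`.)
Put `g₁ i j = (π i j).1 = true`, `g₂ i j = (π i j).2 = true`.  Since there is a transversal through any `a ∈ S i`,
`b ∈ S j` (`i ≠ j`), it is injective and has pattern `π`: so `a ≠ b` (disjointness), `G₁ a b ↔ g₁ i j`,
`G₂ a b ↔ g₂ i j`.  The number of pairs `i ≠ j` with `g₁ i j ∧ g₂ i j` is `n(x)` for any transversal `x`, hence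
`< (d - ε/2) r²`.
-/

open Finset

namespace BVD

open Classical in
/-- the number of pairs of different indices whose entries are different and in relation -/
private noncomputable def kerPop_n {V : Type} (F : V → V → Prop) {r : ℕ} (x : Fin r → V) : ℕ :=
  ((univ : Finset (Fin r × Fin r)).filter
    (fun p => p.1 ≠ p.2 ∧ x p.1 ≠ x p.2 ∧ F (x p.1) (x p.2))).card

private theorem kerPop_card {V : Type} (A : Finset V) (r : ℕ) :
    (Fintype.piFinset (fun _ : Fin r => A)).card = A.card ^ r := by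
  rw [Fintype.card_piFinset]
  simp

open Classical in
private theorem kerPop_pair {V : Type} (F : V → V → Prop) (A : Finset V) {r : ℕ} (i j : Fin r)
    (hij : i ≠ j) :
    A.card ^ 2 * ((Fintype.piFinset (fun _ : Fin r => A)).filter
      (fun x => x i ≠ x j ∧ F (x i) (x j))).card ≤ pairs F A * A.card ^ r := by
  unfold pairs
  rw [← kerPop_card A r, ← Finset.card_product, pow_two, ← Finset.card_product,
    ← Finset.card_product]
  apply Finset.card_le_card_of_injOn
    (fun q : (V × V) × (Fin r → V) =>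
      ((q.2 i, q.2 j), Function.update (Function.update q.2 i q.1.1) j q.1.2))
  · rintro ⟨⟨a, b⟩, x⟩ h
    rw [Finset.mem_coe, Finset.mem_product, Finset.mem_product, Finset.mem_filter,
      Fintype.mem_piFinset] at h
    obtain ⟨⟨ha, hb⟩, hx, hne, hF⟩ := h
    rw [Finset.mem_coe, Finset.mem_product, Finset.mem_filter, Finset.mem_product,
      Fintype.mem_piFinset]
    refine ⟨⟨⟨hx i, hx j⟩, hne, hF⟩, fun l => ?_⟩
    dsimp only
    by_cases hl : l = j
    · subst hl
      simpa using hb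
    · rw [Function.update_of_ne hl]
      by_cases hl2 : l = i
      · subst hl2
        simpa using ha
      · rw [Function.update_of_ne hl2]
        exact hx l
  · rintro ⟨⟨a, b⟩, x⟩ _ ⟨⟨a', b'⟩, x'⟩ _ h
    have h1 : (x i, x j) = (x' i, x' j) := congrArg Prod.fst h
    have h2 : Function.update (Function.update x i a) j b =
        Function.update (Function.update x' i a') j b' := congrArg Prod.snd h
    have hb : b = b' := by
      have := congrFun h2 j
      simpa using this
    have ha : a = a' := by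
      have := congrFun h2 i
      rw [Function.update_of_ne hij, Function.update_of_ne hij] at this
      simpa using this
    have hxi : x i = x' i := congrArg Prod.fst h1
    have hxj : x j = x' j := congrArg Prod.snd h1
    have hx : x = x' := by
      funext l
      by_cases hl : l = j
      · rw [hl]; exact hxj
      · by_cases hl2 : l = i
        · rw [hl2]; exact hxi
        · have := congrFun h2 l
          rw [Function.update_of_ne hl, Function.update_of_ne hl, Function.update_of_ne hl2,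
            Function.update_of_ne hl2] at this
          exact this
    rw [ha, hb, hx]

open Classical in
private theorem kerPop_eq {V : Type} (A : Finset V) {r : ℕ} (i j : Fin r) (hij : i ≠ j) :
    A.card * ((Fintype.piFinset (fun _ : Fin r => A)).filter (fun x => x i = x j)).card
      ≤ A.card ^ r := by
  rw [← kerPop_card A r, ← Finset.card_product]
  apply Finset.card_le_card_of_injOn
    (fun q : V × (Fin r → V) => Function.update q.2 i q.1)
  · rintro ⟨a, x⟩ h
    rw [Finset.mem_coe, Finset.mem_product, Finset.mem_filter, Fintype.mem_piFinset] at h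
    rw [Finset.mem_coe, Fintype.mem_piFinset]
    intro l
    dsimp only
    by_cases hl : l = i
    · subst hl
      simpa using h.1
    · rw [Function.update_of_ne hl]
      exact h.2.1 l
  · rintro ⟨a, x⟩ hm ⟨a', x'⟩ hm' h
    rw [Finset.mem_coe, Finset.mem_product, Finset.mem_filter] at hm hm'
    have hx1 : x i = x j := hm.2.2
    have hx2 : x' i = x' j := hm'.2.2
    have h2 : Function.update x i a = Function.update x' i a' := h
    have ha : a = a' := by
      have := congrFun h2 i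
      simpa using this
    have hl : ∀ l, l ≠ i → x l = x' l := by
      intro l hl
      have := congrFun h2 l
      rwa [Function.update_of_ne hl, Function.update_of_ne hl] at this
    have hx : x = x' := by
      funext l
      by_cases h3 : l = i
      · rw [h3, hx1, hx2]
        exact hl j (Ne.symm hij)
      · exact hl l h3
    rw [ha, hx]

open Classical in
/-- double counting -/
private theorem kerPop_sum {V : Type} (F : V → V → Prop) (A : Finset V) (r : ℕ) :
    A.card ^ 2 * ∑ x ∈ Fintype.piFinset (fun _ : Fin r => A), kerPop_n F x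
      ≤ r ^ 2 * (pairs F A * A.card ^ r) := by
  have h1 : ∑ x ∈ Fintype.piFinset (fun _ : Fin r => A), kerPop_n F x =
      ∑ p ∈ (univ : Finset (Fin r × Fin r)),
        ((Fintype.piFinset (fun _ : Fin r => A)).filter
          (fun x => p.1 ≠ p.2 ∧ x p.1 ≠ x p.2 ∧ F (x p.1) (x p.2))).card := by
    have h := Finset.sum_card_bipartiteAbove_eq_sum_card_bipartiteBelow
      (s := Fintype.piFinset (fun _ : Fin r => A)) (t := (univ : Finset (Fin r × Fin r)))
      (fun (x : Fin r → V) (p : Fin r × Fin r) =>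
        p.1 ≠ p.2 ∧ x p.1 ≠ x p.2 ∧ F (x p.1) (x p.2))
    unfold Finset.bipartiteAbove Finset.bipartiteBelow at h
    exact h
  rw [h1, Finset.mul_sum]
  have h2 : ∀ p ∈ (univ : Finset (Fin r × Fin r)),
      A.card ^ 2 * ((Fintype.piFinset (fun _ : Fin r => A)).filter
          (fun x => p.1 ≠ p.2 ∧ x p.1 ≠ x p.2 ∧ F (x p.1) (x p.2))).card
        ≤ pairs F A * A.card ^ r := by
    intro p _
    by_cases hp : p.1 = p.2
    · have h3 : (Fintype.piFinset (fun _ : Fin r => A)).filter
          (fun x => p.1 ≠ p.2 ∧ x p.1 ≠ x p.2 ∧ F (x p.1) (x p.2)) = ∅ := by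
        apply Finset.filter_eq_empty_iff.2
        intro x _ h
        exact h.1 hp
      rw [h3]
      simp
    · refine le_trans (Nat.mul_le_mul_left _ (Finset.card_le_card ?_))
        (kerPop_pair F A p.1 p.2 hp)
      intro x hx
      rw [Finset.mem_filter] at hx ⊢
      exact ⟨hx.1, hx.2.2⟩
  refine le_trans (Finset.sum_le_card_nsmul _ _ _ h2) ?_
  rw [smul_eq_mul, Finset.card_univ, Fintype.card_prod, Fintype.card_fin, pow_two]

open Classical in
/-- the tuples which are not injective -/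
private theorem kerPop_inj {V : Type} (A : Finset V) (r : ℕ) :
    A.card * ((Fintype.piFinset (fun _ : Fin r => A)).filter
      (fun x => ¬ Function.Injective x)).card ≤ r ^ 2 * A.card ^ r := by
  have hsub : ((Fintype.piFinset (fun _ : Fin r => A)).filter
      (fun x => ¬ Function.Injective x)) ⊆
      (univ : Finset (Fin r × Fin r)).biUnion (fun p =>
        (Fintype.piFinset (fun _ : Fin r => A)).filter (fun x => p.1 ≠ p.2 ∧ x p.1 = x p.2)) := by
    intro x hx
    rw [Finset.mem_filter] at hx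
    have h := hx.2
    unfold Function.Injective at h
    push Not at h
    obtain ⟨a, b, hab, hne⟩ := h
    rw [Finset.mem_biUnion]
    refine ⟨(a, b), Finset.mem_univ _, ?_⟩
    rw [Finset.mem_filter]
    exact ⟨hx.1, hne, hab⟩
  have h2 : ∀ p ∈ (univ : Finset (Fin r × Fin r)),
      A.card * ((Fintype.piFinset (fun _ : Fin r => A)).filter
        (fun x => p.1 ≠ p.2 ∧ x p.1 = x p.2)).card ≤ A.card ^ r := by
    intro p _
    by_cases hp : p.1 = p.2
    · have h3 : (Fintype.piFinset (fun _ : Fin r => A)).filter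
          (fun x => p.1 ≠ p.2 ∧ x p.1 = x p.2) = ∅ := by
        apply Finset.filter_eq_empty_iff.2
        intro x _ h
        exact h.1 hp
      rw [h3]
      simp
    · refine le_trans (Nat.mul_le_mul_left _ (Finset.card_le_card ?_))
        (kerPop_eq A p.1 p.2 hp)
      intro x hx
      rw [Finset.mem_filter] at hx ⊢
      exact ⟨hx.1, hx.2.2⟩
  calc A.card * ((Fintype.piFinset (fun _ : Fin r => A)).filter
      (fun x => ¬ Function.Injective x)).card
      ≤ A.card * ∑ p ∈ (univ : Finset (Fin r × Fin r)),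
          ((Fintype.piFinset (fun _ : Fin r => A)).filter
            (fun x => p.1 ≠ p.2 ∧ x p.1 = x p.2)).card :=
        Nat.mul_le_mul_left _ (le_trans (Finset.card_le_card hsub) Finset.card_biUnion_le)
    _ = ∑ p ∈ (univ : Finset (Fin r × Fin r)),
          A.card * ((Fintype.piFinset (fun _ : Fin r => A)).filter
            (fun x => p.1 ≠ p.2 ∧ x p.1 = x p.2)).card := by rw [Finset.mul_sum]
    _ ≤ r ^ 2 * A.card ^ r := by
        refine le_trans (Finset.sum_le_card_nsmul _ _ _ h2) ?_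
        rw [smul_eq_mul, Finset.card_univ, Fintype.card_prod, Fintype.card_fin, pow_two]

open Classical in
/-- many injective tuples with few pairs in relation -/
private theorem kerPop_good {V : Type} (F : V → V → Prop) (d ε : ℝ) (hε : 0 < ε) (hd : 0 < d - ε)
    (r : ℕ) (hr : 0 < r) (δ : ℝ) (hδ : δ = 1 - (d - ε) / (d - ε / 2)) (A : Finset V)
    (hA : 0 < A.card) (hA2 : 2 * (r : ℝ) ^ 2 ≤ δ * A.card)
    (hp : (pairs F A : ℝ) ≤ (d - ε) * (A.card : ℝ) ^ 2) :
    δ / 2 * (A.card : ℝ) ^ r ≤ (((Fintype.piFinset (fun _ : Fin r => A)).filter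
      (fun x => Function.Injective x ∧ (kerPop_n F x : ℝ) ≤ (d - ε / 2) * (r : ℝ) ^ 2)).card : ℝ) := by
  have hK : (0 : ℝ) < A.card := by exact_mod_cast hA
  have hd2 : 0 < d - ε / 2 := by linarith
  have hrr : (0 : ℝ) < (r : ℝ) ^ 2 := by
    have : (0 : ℝ) < r := by exact_mod_cast hr
    positivity
  set Ω := Fintype.piFinset (fun _ : Fin r => A) with hΩ
  have hΩc : (Ω.card : ℝ) = (A.card : ℝ) ^ r := by
    rw [hΩ, kerPop_card]
    push_cast
    rfl
  -- the sum
  have hs : (A.card : ℝ) ^ 2 * ∑ x ∈ Ω, (kerPop_n F x : ℝ) ≤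
      (r : ℝ) ^ 2 * ((pairs F A : ℝ) * (A.card : ℝ) ^ r) := by
    exact_mod_cast kerPop_sum F A r
  have hs2 : ∑ x ∈ Ω, (kerPop_n F x : ℝ) ≤ (r : ℝ) ^ 2 * ((d - ε) * (A.card : ℝ) ^ r) := by
    have h1 : (A.card : ℝ) ^ 2 * ∑ x ∈ Ω, (kerPop_n F x : ℝ) ≤
        (A.card : ℝ) ^ 2 * ((r : ℝ) ^ 2 * ((d - ε) * (A.card : ℝ) ^ r)) := by
      refine le_trans hs ?_
      have h2 : (pairs F A : ℝ) * (A.card : ℝ) ^ r ≤
          ((d - ε) * (A.card : ℝ) ^ 2) * (A.card : ℝ) ^ r :=
        mul_le_mul_of_nonneg_right hp (by positivity)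
      calc (r : ℝ) ^ 2 * ((pairs F A : ℝ) * (A.card : ℝ) ^ r)
          ≤ (r : ℝ) ^ 2 * (((d - ε) * (A.card : ℝ) ^ 2) * (A.card : ℝ) ^ r) :=
            mul_le_mul_of_nonneg_left h2 hrr.le
        _ = _ := by ring
    exact le_of_mul_le_mul_left h1 (by positivity)
  -- the bad tuples
  set B := Ω.filter (fun x => (d - ε / 2) * (r : ℝ) ^ 2 < (kerPop_n F x : ℝ)) with hB
  have hBc : (B.card : ℝ) ≤ (1 - δ) * (A.card : ℝ) ^ r := by
    have h1 : (B.card : ℝ) * ((d - ε / 2) * (r : ℝ) ^ 2) ≤ ∑ x ∈ Ω, (kerPop_n F x : ℝ) := by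
      calc (B.card : ℝ) * ((d - ε / 2) * (r : ℝ) ^ 2)
          = ∑ _x ∈ B, ((d - ε / 2) * (r : ℝ) ^ 2) := by rw [Finset.sum_const, nsmul_eq_mul]
        _ ≤ ∑ x ∈ B, (kerPop_n F x : ℝ) :=
            Finset.sum_le_sum (fun x hx => (Finset.mem_filter.1 hx).2.le)
        _ ≤ ∑ x ∈ Ω, (kerPop_n F x : ℝ) :=
            Finset.sum_le_sum_of_subset_of_nonneg (Finset.filter_subset _ _)
              (fun _ _ _ => Nat.cast_nonneg _)
    have h2 : (B.card : ℝ) * ((d - ε / 2) * (r : ℝ) ^ 2) ≤
        ((1 - δ) * (A.card : ℝ) ^ r) * ((d - ε / 2) * (r : ℝ) ^ 2) := by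
      refine le_trans h1 (le_trans hs2 (le_of_eq ?_))
      have h3 : (1 - δ) * (d - ε / 2) = d - ε := by
        rw [hδ, sub_sub_cancel]
        exact div_mul_cancel₀ _ hd2.ne'
      calc (r : ℝ) ^ 2 * ((d - ε) * (A.card : ℝ) ^ r)
          = (r : ℝ) ^ 2 * (((1 - δ) * (d - ε / 2)) * (A.card : ℝ) ^ r) := by rw [h3]
        _ = _ := by ring
    exact le_of_mul_le_mul_right h2 (by positivity)
  set C := Ω.filter (fun x => ¬ Function.Injective x) with hC
  have hCc : (C.card : ℝ) ≤ δ / 2 * (A.card : ℝ) ^ r := by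
    have h1 : (A.card : ℝ) * (C.card : ℝ) ≤ (r : ℝ) ^ 2 * (A.card : ℝ) ^ r := by
      exact_mod_cast kerPop_inj A r
    have h2 : (A.card : ℝ) * (C.card : ℝ) ≤ (A.card : ℝ) * (δ / 2 * (A.card : ℝ) ^ r) := by
      refine le_trans h1 ?_
      have h3 : (r : ℝ) ^ 2 ≤ δ / 2 * A.card := by linarith
      calc (r : ℝ) ^ 2 * (A.card : ℝ) ^ r ≤ (δ / 2 * A.card) * (A.card : ℝ) ^ r :=
            mul_le_mul_of_nonneg_right h3 (by positivity)
        _ = _ := by ring
    exact le_of_mul_le_mul_left h2 hK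
  have hcov : Ω ⊆ (Ω.filter (fun x => Function.Injective x ∧
      (kerPop_n F x : ℝ) ≤ (d - ε / 2) * (r : ℝ) ^ 2)) ∪ (B ∪ C) := by
    intro x hx
    rw [Finset.mem_union, Finset.mem_union, hB, hC, Finset.mem_filter, Finset.mem_filter,
      Finset.mem_filter]
    by_cases h1 : Function.Injective x
    · by_cases h2 : (kerPop_n F x : ℝ) ≤ (d - ε / 2) * (r : ℝ) ^ 2
      · exact Or.inl ⟨hx, h1, h2⟩
      · exact Or.inr (Or.inl ⟨hx, not_le.1 h2⟩)
    · exact Or.inr (Or.inr ⟨hx, h1⟩)
  have hcc := le_trans (Finset.card_le_card hcov) (le_trans (Finset.card_union_le _ _)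
    (Nat.add_le_add_left (Finset.card_union_le _ _) _))
  have hcR : (Ω.card : ℝ) ≤ ((Ω.filter (fun x => Function.Injective x ∧
      (kerPop_n F x : ℝ) ≤ (d - ε / 2) * (r : ℝ) ^ 2)).card : ℝ) + ((B.card : ℝ) + (C.card : ℝ)) := by
    exact_mod_cast hcc
  rw [hΩc] at hcR
  have h9 : (1 - δ) * (A.card : ℝ) ^ r = (A.card : ℝ) ^ r - δ * (A.card : ℝ) ^ r := by ring
  linarith

open Classical in
private theorem kerPop_pull {V : Type*} {W : Type} [Fintype W] (F : V → V → Prop) (A : Finset V)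
    (e : W → V) (he : Function.Injective e) (heA : ∀ a, e a ∈ A) :
    pairs (fun a b => F (e a) (e b)) (univ : Finset W) ≤ pairs F A := by
  unfold pairs
  apply Finset.card_le_card_of_injOn (fun p : W × W => (e p.1, e p.2))
  · intro p hp
    rw [Finset.mem_coe, Finset.mem_filter] at hp
    rw [Finset.mem_coe, Finset.mem_filter, Finset.mem_product]
    exact ⟨⟨heA _, heA _⟩, fun h => hp.2.1 (he h), hp.2.2⟩
  · intro p _ q _ hpq
    have e1 : e p.1 = e q.1 := congrArg Prod.fst hpq
    have e2 : e p.2 = e q.2 := congrArg Prod.snd hpq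
    exact Prod.ext (he e1) (he e2)

open Classical in
private theorem kerPop_main (d ε : ℝ) (hε : 0 < ε) (hd : 0 < d - ε) (r t : ℕ) (hr : 0 < r) :
    ∃ k₀ : ℕ, ∀ {V : Type} (G₁ G₂ : V → V → Prop) (A : Finset V), k₀ ≤ A.card →
      (pairs (fun a b => G₁ a b ∧ G₂ a b) A : ℝ) ≤ (d - ε) * (A.card : ℝ) ^ 2 →
      ∃ S : Fin r → Finset V, (∀ i, (S i).card = t) ∧
        (∀ i j, i ≠ j → Disjoint (S i) (S j)) ∧
        ∃ g₁ g₂ : Fin r → Fin r → Prop,
          (∀ i j, i ≠ j → ∀ a ∈ S i, ∀ b ∈ S j, (G₁ a b ↔ g₁ i j) ∧ (G₂ a b ↔ g₂ i j)) ∧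
          (((univ : Finset (Fin r × Fin r)).filter
              (fun p => p.1 ≠ p.2 ∧ g₁ p.1 p.2 ∧ g₂ p.1 p.2)).card : ℝ) ≤
            (d - ε / 2) * (r : ℝ) ^ 2 := by
  obtain ⟨δ, hδ⟩ : ∃ δ : ℝ, δ = 1 - (d - ε) / (d - ε / 2) := ⟨_, rfl⟩
  have hd2 : 0 < d - ε / 2 := by linarith
  have hδ0 : 0 < δ := by
    rw [hδ, sub_pos, div_lt_one hd2]
    linarith
  obtain ⟨M, hM⟩ : ∃ M : ℕ, M = Fintype.card (Fin r → Fin r → Bool × Bool) := ⟨_, rfl⟩
  have hM0 : 0 < M := by
    rw [hM]
    exact Fintype.card_pos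
  have hMR : (0 : ℝ) < M := by exact_mod_cast hM0
  obtain ⟨k₁, hk₁⟩ := erdos r (t + 1) (δ / 2 / M) (by positivity)
  refine ⟨k₁ + ⌈2 * (r : ℝ) ^ 2 / δ⌉₊ + 1, ?_⟩
  intro V G₁ G₂ A hA hp
  have hA2 : 2 * (r : ℝ) ^ 2 ≤ δ * A.card := by
    have h1 : 2 * (r : ℝ) ^ 2 / δ ≤ A.card := by
      refine le_trans (Nat.le_ceil _) ?_
      exact_mod_cast (by omega : ⌈2 * (r : ℝ) ^ 2 / δ⌉₊ ≤ A.card)
    rw [div_le_iff₀ hδ0] at h1
    linarith
  have hgood := kerPop_good (fun a b => G₁ a b ∧ G₂ a b) d ε hε hd r hr δ hδ A (by omega) hA2 hp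
  set Gd := (Fintype.piFinset (fun _ : Fin r => A)).filter
      (fun x => Function.Injective x ∧
        (kerPop_n (fun a b => G₁ a b ∧ G₂ a b) x : ℝ) ≤ (d - ε / 2) * (r : ℝ) ^ 2) with hGd
  let pat : (Fin r → V) → (Fin r → Fin r → Bool × Bool) := fun x i j =>
    (decide (G₁ (x i) (x j)), decide (G₂ (x i) (x j)))
  obtain ⟨π, hπ⟩ : ∃ π : Fin r → Fin r → Bool × Bool,
      δ / 2 / M * (A.card : ℝ) ^ r ≤ ((Gd.filter (fun x => pat x = π)).card : ℝ) := by
    have h1 : Gd.card = ∑ π ∈ (univ : Finset (Fin r → Fin r → Bool × Bool)),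
        (Gd.filter (fun x => pat x = π)).card :=
      Finset.card_eq_sum_card_fiberwise (fun x _ => Finset.mem_univ _)
    have h2 : ∑ _π ∈ (univ : Finset (Fin r → Fin r → Bool × Bool)),
        (δ / 2 / M * (A.card : ℝ) ^ r) ≤
        ∑ π ∈ (univ : Finset (Fin r → Fin r → Bool × Bool)),
          ((Gd.filter (fun x => pat x = π)).card : ℝ) := by
      rw [Finset.sum_const, nsmul_eq_mul, Finset.card_univ, ← hM]
      have h3 : (Gd.card : ℝ) = ∑ π ∈ (univ : Finset (Fin r → Fin r → Bool × Bool)),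
          ((Gd.filter (fun x => pat x = π)).card : ℝ) := by
        exact_mod_cast h1
      rw [← h3]
      refine le_trans (le_of_eq ?_) hgood
      field_simp
    obtain ⟨π, _, hπ⟩ := Finset.exists_le_of_sum_le Finset.univ_nonempty h2
    exact ⟨π, hπ⟩
  obtain ⟨S', hS', hT⟩ := hk₁ A (Gd.filter (fun x => pat x = π))
    ((Finset.filter_subset _ _).trans (Finset.filter_subset _ _)) (by omega) hπ
  have hne : ∀ i, (S' i).Nonempty := fun i => Finset.card_pos.1 (by rw [(hS' i).1]; omega)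
  choose z hz using hne
  have hTz : ∀ x : Fin r → V, (∀ i, x i ∈ S' i) → Function.Injective x ∧
      (kerPop_n (fun a b => G₁ a b ∧ G₂ a b) x : ℝ) ≤ (d - ε / 2) * (r : ℝ) ^ 2 ∧
      pat x = π := by
    intro x hx
    have h := hT x hx
    rw [Finset.mem_filter, hGd, Finset.mem_filter] at h
    exact ⟨h.1.2.1, h.1.2.2, h.2⟩
  have hpair : ∀ i j, i ≠ j → ∀ a ∈ S' i, ∀ b ∈ S' j, a ≠ b ∧
      (G₁ a b ↔ (π i j).1 = true) ∧ (G₂ a b ↔ (π i j).2 = true) := by
    intro i j hij a ha b hb
    have hx : ∀ k, Function.update (Function.update z i a) j b k ∈ S' k := by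
      intro k
      by_cases hkj : k = j
      · subst hkj
        simpa using hb
      · rw [Function.update_of_ne hkj]
        by_cases hki : k = i
        · subst hki
          simpa using ha
        · rw [Function.update_of_ne hki]
          exact hz k
    obtain ⟨h1, _, h3⟩ := hTz _ hx
    have ei : Function.update (Function.update z i a) j b i = a := by
      rw [Function.update_of_ne hij, Function.update_self]
    have ej : Function.update (Function.update z i a) j b j = b := Function.update_self _ _ _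
    refine ⟨?_, ?_, ?_⟩
    · intro hab
      apply hij
      apply h1
      rw [ei, ej, hab]
    · rw [← h3]
      simp only [pat]
      rw [ei, ej]
      simp
    · rw [← h3]
      simp only [pat]
      rw [ei, ej]
      simp
  have hsub : ∀ i, ∃ S ⊆ S' i, S.card = t := by
    intro i
    exact Finset.exists_subset_card_eq (by rw [(hS' i).1]; omega)
  choose S hSS hSc using hsub
  refine ⟨S, hSc, ?_, fun i j => (π i j).1 = true, fun i j => (π i j).2 = true, ?_, ?_⟩
  · intro i j hij
    rw [Finset.disjoint_left]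
    intro a ha hb
    exact (hpair i j hij a (hSS i ha) a (hSS j hb)).1 rfl
  · intro i j hij a ha b hb
    exact (hpair i j hij a (hSS i ha) b (hSS j hb)).2
  · obtain ⟨h1, h2, h3⟩ := hTz z hz
    refine le_trans ?_ h2
    unfold kerPop_n
    have h4 : ((univ : Finset (Fin r × Fin r)).filter
        (fun p => p.1 ≠ p.2 ∧ (π p.1 p.2).1 = true ∧ (π p.1 p.2).2 = true)) ⊆
        ((univ : Finset (Fin r × Fin r)).filter
          (fun p => p.1 ≠ p.2 ∧ z p.1 ≠ z p.2 ∧ G₁ (z p.1) (z p.2) ∧ G₂ (z p.1) (z p.2))) := by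
      intro p hp
      rw [Finset.mem_filter] at hp ⊢
      obtain ⟨_, hne, e1, e2⟩ := hp
      obtain ⟨f1, f2, f3⟩ := hpair p.1 p.2 hne (z p.1) (hz p.1) (z p.2) (hz p.2)
      exact ⟨Finset.mem_univ _, hne, f1, f2.2 e1, f3.2 e2⟩
    exact_mod_cast Finset.card_le_card h4

open Classical in
theorem popular {V : Type*} (G₁ G₂ : V → V → Prop) (d : ℝ)
    (h : ¬ Dens (fun a b => G₁ a b ∧ G₂ a b) d) :
    ∃ η : ℝ, 0 < η ∧ ∀ r t : ℕ, ∃ S : Fin r → Finset V, (∀ i, (S i).card = t) ∧
      (∀ i j, i ≠ j → Disjoint (S i) (S j)) ∧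
      ∃ g₁ g₂ : Fin r → Fin r → Prop,
        (∀ i j, i ≠ j → ∀ a ∈ S i, ∀ b ∈ S j, (G₁ a b ↔ g₁ i j) ∧ (G₂ a b ↔ g₂ i j)) ∧
        (((univ : Finset (Fin r × Fin r)).filter
            (fun p => p.1 ≠ p.2 ∧ g₁ p.1 p.2 ∧ g₂ p.1 p.2)).card : ℝ) ≤
          (d - η) * (r : ℝ) ^ 2 := by
  unfold Dens at h
  push Not at h
  obtain ⟨ε, hε, hA⟩ := h
  have hd : 0 < d - ε := by
    obtain ⟨A, hA1, hA2⟩ := hA 1
    have h1 : (0 : ℝ) ≤ (pairs (fun a b => G₁ a b ∧ G₂ a b) A : ℝ) := Nat.cast_nonneg _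
    have h2 : (0 : ℝ) < (A.card : ℝ) ^ 2 := by
      have : (0 : ℝ) < A.card := by exact_mod_cast hA1
      positivity
    by_contra hcon
    push Not at hcon
    have h3 : (d - ε) * (A.card : ℝ) ^ 2 ≤ 0 := mul_nonpos_of_nonpos_of_nonneg hcon h2.le
    linarith
  refine ⟨ε / 2, by positivity, fun r t => ?_⟩
  rcases Nat.eq_zero_or_pos r with hr | hr
  · subst hr
    refine ⟨fun i => i.elim0, fun i => i.elim0, fun i => i.elim0, fun i => i.elim0,
      fun i => i.elim0, fun i => i.elim0, ?_⟩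
    simp
  obtain ⟨k₀, hk₀⟩ := kerPop_main d ε hε hd r t hr
  obtain ⟨A, hA1, hA2⟩ := hA k₀
  let e : Fin A.card → V := fun a => (A.equivFin.symm a).1
  have he : Function.Injective e := by
    intro a b hab
    exact A.equivFin.symm.injective (Subtype.ext hab)
  have heA : ∀ a, e a ∈ A := fun a => (A.equivFin.symm a).2
  obtain ⟨S, h1, h2, g₁, g₂, h3, h4⟩ := hk₀ (fun a b => G₁ (e a) (e b)) (fun a b => G₂ (e a) (e b))
    (univ : Finset (Fin A.card)) (by rw [Finset.card_univ, Fintype.card_fin]; exact hA1) (by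
      rw [Finset.card_univ, Fintype.card_fin]
      refine le_trans ?_ hA2.le
      have h5 : pairs (fun a b => G₁ (e a) (e b) ∧ G₂ (e a) (e b)) (univ : Finset (Fin A.card)) ≤
          pairs (fun a b => G₁ a b ∧ G₂ a b) A :=
        kerPop_pull (fun a b => G₁ a b ∧ G₂ a b) A e he heA
      exact_mod_cast h5)
  refine ⟨fun i => (S i).map ⟨e, he⟩, ?_, ?_, g₁, g₂, ?_, ?_⟩
  · intro i
    rw [Finset.card_map]
    exact h1 i
  · intro i j hij
    rw [Finset.disjoint_map]
    exact h2 i j hij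
  · intro i j hij a ha b hb
    rw [Finset.mem_map] at ha hb
    obtain ⟨a', ha', rfl⟩ := ha
    obtain ⟨b', hb', rfl⟩ := hb
    exact h3 i j hij a' ha' b' hb'
  · exact h4

end BVD
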