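import Pool.Agent.helper24.BVD.KerPattern
import Pool.Agent.helper24.BVD.KerPop

/-!
# BVD-KerBoth: the densities multiply

PROOF of `ker_both`.  Suppose not.  `popular` gives `η > 0` (with `d = 1/c²`).  Choose `ε ∈ (0,1]` and then `r`
with `r (r - (c+2)²) > (c+ε)² (1/c² - η) r²`: since `(c+ε)²(1/c² - η) → 1 - η c² < 1` as `ε → 0`, e.g.
`ε = min 1 (...)` with `(c+ε)² (1/c² - η) ≤ 1 - η c²/2` (if `1/c² - η ≤ 0` any `ε` works, the left side is positive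
for `r > (c+2)²`), then `r > 2 (c+2)²/(η c²)`.  `ker_pattern` gives `t₀`; apply `popular` with `r`, `t = t₀` and
`ker_pattern` to the result (`G a b → g i j` from the equivalences): contradiction.
-/

open Finset

namespace BVD

theorem ker_both {V : Type*} (G₁ G₂ : V → V → Prop) (c : ℝ) (hc : 0 < c)
    (h₁ : Ker G₁ c) (h₂ : Ker G₂ c) : Dens (fun a b => G₁ a b ∧ G₂ a b) (1 / c ^ 2) := by
  classical
  by_contra hD
  obtain ⟨η, hη, hpop⟩ := popular G₁ G₂ (1 / c ^ 2) hD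
  have hc2 : 0 < c ^ 2 := by positivity
  obtain ⟨κ, hκ⟩ : ∃ κ, κ = η * c ^ 2 / 2 := ⟨_, rfl⟩
  have hκ0 : 0 < κ := by rw [hκ]; positivity
  obtain ⟨ε, hεd⟩ : ∃ ε, ε = min 1 (κ * c ^ 2 / (2 * c + 1)) := ⟨_, rfl⟩
  have hε : 0 < ε := by
    rw [hεd]
    exact lt_min one_pos (by positivity)
  have hε1 : ε ≤ 1 := by
    rw [hεd]
    exact min_le_left _ _
  have hε2 : ε * (2 * c + 1) ≤ κ * c ^ 2 := by
    rw [← le_div_iff₀ (by positivity), hεd]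
    exact min_le_right _ _
  have hmain : (c + ε) ^ 2 * (1 / c ^ 2 - η) ≤ 1 - κ := by
    have h1 : c ^ 2 * (1 / c ^ 2 - η) = 1 - 2 * κ := by
      rw [hκ]
      field_simp
    have h2 : (c + ε) ^ 2 - c ^ 2 ≤ ε * (2 * c + 1) := by nlinarith
    have h3 : 0 ≤ (c + ε) ^ 2 - c ^ 2 := by nlinarith
    rcases le_or_gt (1 / c ^ 2 - η) 0 with h0 | h0
    · nlinarith [mul_nonneg h3 (neg_nonneg.2 h0)]
    · have h4 : 1 / c ^ 2 - η ≤ 1 / c ^ 2 := by linarith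
      have h5 : ((c + ε) ^ 2 - c ^ 2) * (1 / c ^ 2 - η) ≤ (κ * c ^ 2) * (1 / c ^ 2) :=
        mul_le_mul (h2.trans hε2) h4 h0.le (by positivity)
      have h6 : (κ * c ^ 2) * (1 / c ^ 2) = κ := by field_simp
      nlinarith
  obtain ⟨r, hr⟩ := exists_nat_gt ((c + 2) ^ 2 / κ)
  have hr0 : (0 : ℝ) < r := lt_trans (by positivity) hr
  have hr1 : (c + 2) ^ 2 < r * κ := by rwa [div_lt_iff₀ hκ0] at hr
  obtain ⟨t₀, ht₀⟩ := ker_pattern G₁ G₂ c hc h₁ h₂ r ε hε hε1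
  obtain ⟨S, hS1, hS2, g₁, g₂, hg, hcard⟩ := hpop r t₀
  have h7 := ht₀ t₀ le_rfl S hS1 hS2 g₁ g₂
    (fun i j hij a ha b hb => ⟨(hg i j hij a ha b hb).1.1, (hg i j hij a ha b hb).2.1⟩)
  have h8 := mul_le_mul_of_nonneg_left hcard (sq_nonneg (c + ε))
  have h9 : (c + ε) ^ 2 * ((1 / c ^ 2 - η) * (r : ℝ) ^ 2) ≤ (1 - κ) * (r : ℝ) ^ 2 := by
    rw [← mul_assoc]
    exact mul_le_mul_of_nonneg_right hmain (sq_nonneg _)
  have h10 : (r : ℝ) * (r - (c + 2) ^ 2) ≤ (1 - κ) * (r : ℝ) ^ 2 := h7.trans (h8.trans h9)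
  nlinarith

end BVD
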