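import Pool.Agent.helper24.BVD.Defs

/-!
# BVD-Ker: second moment kernels (definition)

`Ker G c`: for every large finite set `A` of vertices there are a finite measure space of total mass
at most 1 (weights `w` on `{0,...,N-1}`) and functions `X a` with values in `[0,1]`, `a ∈ A`, with
integrals at least `α`, `|A| α ≥ H`, pair integrals at most `(c + ε) α²` for different vertices, and
pair integral `0` for different vertices which are not in relation `G`.
For `G` = ratios of shifted primes this is the Maynard-Tao weights theorem with `c = 4`.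
-/

open Finset

namespace BVD

variable {V : Type*}

/-- Second moment kernel with constant `c` supported on the relation `G`. -/
def Ker (G : V → V → Prop) (c : ℝ) : Prop :=
  ∀ ε H : ℝ, 0 < ε → ∃ K : ℕ, ∀ A : Finset V, K ≤ A.card →
    ∃ α : ℝ, 0 < α ∧ H ≤ (A.card : ℝ) * α ∧
      ∃ (N : ℕ) (w : ℕ → ℝ) (X : V → ℕ → ℝ),
        (∀ n, 0 ≤ w n) ∧ (∑ n ∈ range N, w n ≤ 1) ∧
        (∀ a n, 0 ≤ X a n ∧ X a n ≤ 1) ∧
        (∀ a ∈ A, α ≤ ∑ n ∈ range N, w n * X a n) ∧
        (∀ a ∈ A, ∀ b ∈ A, a ≠ b →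
          ∑ n ∈ range N, w n * (X a n * X b n) ≤ (c + ε) * α ^ 2) ∧
        (∀ a ∈ A, ∀ b ∈ A, a ≠ b → ¬ G a b →
          ∑ n ∈ range N, w n * (X a n * X b n) = 0)

end BVD
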