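import Pool.Agent.helper24.BVD.KerDefs

/-!
# BVD-KerPattern: two kernels and a blow-up with prescribed patterns

SETTING.  `S : Fin r → Finset V` pairwise disjoint sets with `t` elements each; between `S i` and `S j` (`i ≠ j`)
the relation `G₁` holds only if `g₁ i j`, `G₂` only if `g₂ i j`.

PROOF of `ker_pattern`.  `C = (c + 2)^2`.  Let `K₁`, `K₂` be given by `h₁`, `h₂` with `ε` and `H = r` (real number,
`r ≥ 1`; for `r = 0` the claim is `0 ≤ 0`).  Take `t₀ = max K₁ K₂ + 1`, so that `A = ⋃ S i` (`univ.biUnion S`) has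
`r t ≥ t ≥ K₁, K₂` elements.  Get `α, N, w, X` and `β, M, v, Y`.  Put
`f i n = (1/t) ∑_{a ∈ S i} X a n`, `g i m = (1/t) ∑_{a ∈ S i} Y a m`, `m i = ∑_n w n * f i n ≥ α`,
`m' i = ∑_m v m * g i m ≥ β`, `P i j = ∑_n w n (f i n * f j n)`, `Q i j = ∑_m v m (g i m * g j m)`; all nonnegative.
(a) `P i j ≤ (c+ε) α²` for `i ≠ j`, and `P i j = 0` if `¬ g₁ i j`; the same for `Q`, `β`, `g₂` (average of the
pair integrals; the elements of `S i`, `S j` are different because the sets are disjoint).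
(b) `P i i ≤ (c+ε) α² + m i / t ≤ (c + ε + 1) α (m i)`: pairs `a ≠ b` in `S i` give at most `(c+ε) α²`, the
diagonal gives `(1/t²) ∑_{a ∈ S i} ∑ w X_a² ≤ (1/t²) ∑_{a∈S i} ∑ w X_a = m i / t` (`X² ≤ X`), and
`1/t ≤ α` because `r ≤ (r t) α`, and `α² ≤ α (m i)`.  The same for `Q`.
(c) `∑_{i,j} P i j Q i j = ∑_n ∑_m w n v m (∑_i f i n g i m)² ≥ (∑_n ∑_m w n v m ∑_i f i n g i m)²
= (∑_i m i m' i)² =: B²` (Cauchy-Schwarz with total mass `∑_n ∑_m w n v m ≤ 1`; e.g. expand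
`0 ≤ ∑∑ w v (Z - B)²`).  `B ≥ r α β`.
(d) With `#` the number of pairs `i ≠ j`, `g₁ i j`, `g₂ i j`:
`∑_{i,j} P Q ≤ # (c+ε)² α² β² + ∑_i (c+ε+1)² α β (m i)(m' i) ≤ # (c+ε)² α² β² + C α β B` (`ε ≤ 1`).
(e) `B (B - C α β) ≤ # (c+ε)² (α β)²` and `B ≥ r α β`: if `r ≤ C` the claim is trivial (left side `≤ 0`), else
`B (B - C α β) ≥ r (r - C) (α β)²`; divide by `(α β)² > 0`.
-/

open Finset

namespace BVD

/-- Cauchy-Schwarz with total mass at most one. -/
private theorem kp_cs {ι : Type*} (s : Finset ι) (W Z : ι → ℝ) (hW : ∀ p ∈ s, 0 ≤ W p)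
    (hW1 : ∑ p ∈ s, W p ≤ 1) : (∑ p ∈ s, W p * Z p) ^ 2 ≤ ∑ p ∈ s, W p * Z p ^ 2 := by
  set B := ∑ p ∈ s, W p * Z p with hB
  have h0 : 0 ≤ ∑ p ∈ s, W p * (Z p - B) ^ 2 :=
    sum_nonneg (fun p hp => mul_nonneg (hW p hp) (sq_nonneg _))
  have h1 : ∑ p ∈ s, W p * (Z p - B) ^ 2
      = ∑ p ∈ s, W p * Z p ^ 2 - 2 * B * B + B ^ 2 * ∑ p ∈ s, W p := by
    calc ∑ p ∈ s, W p * (Z p - B) ^ 2
        = ∑ p ∈ s, (W p * Z p ^ 2 - 2 * B * (W p * Z p) + B ^ 2 * W p) :=
          sum_congr rfl (fun p _ => by ring)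
      _ = ∑ p ∈ s, W p * Z p ^ 2 - 2 * B * B + B ^ 2 * ∑ p ∈ s, W p := by
          rw [sum_add_distrib, sum_sub_distrib, ← mul_sum, ← mul_sum, ← hB]
  have h2 : B ^ 2 * ∑ p ∈ s, W p ≤ B ^ 2 * 1 := mul_le_mul_of_nonneg_left hW1 (sq_nonneg B)
  nlinarith

/-- One kernel averaged over the blocks. -/
private theorem kp_one {V : Type*} (G : V → V → Prop) (c ε : ℝ) (hc : 0 < c) (hε : 0 < ε)
    (r t : ℕ) (ht : 1 ≤ t) (S : Fin r → Finset V) (hcard : ∀ i, (S i).card = t)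
    (hdisj : ∀ i j, i ≠ j → Disjoint (S i) (S j)) (g : Fin r → Fin r → Prop)
    (hg : ∀ i j, i ≠ j → ∀ a ∈ S i, ∀ b ∈ S j, G a b → g i j)
    (α : ℝ) (hα : 0 < α) (hH : 1 ≤ (t : ℝ) * α) (N : ℕ) (w : ℕ → ℝ) (X : V → ℕ → ℝ)
    (hw : ∀ n, 0 ≤ w n) (hX : ∀ a n, 0 ≤ X a n ∧ X a n ≤ 1)
    (hXm : ∀ i, ∀ a ∈ S i, α ≤ ∑ n ∈ range N, w n * X a n)
    (hXp : ∀ i j, ∀ a ∈ S i, ∀ b ∈ S j, a ≠ b →
          ∑ n ∈ range N, w n * (X a n * X b n) ≤ (c + ε) * α ^ 2)
    (hXz : ∀ i j, ∀ a ∈ S i, ∀ b ∈ S j, a ≠ b → ¬ G a b →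
          ∑ n ∈ range N, w n * (X a n * X b n) = 0) :
    ∃ f : Fin r → ℕ → ℝ, (∀ i n, 0 ≤ f i n) ∧
      (∀ i, α ≤ ∑ n ∈ range N, w n * f i n) ∧
      (∀ i j, i ≠ j → ∑ n ∈ range N, w n * (f i n * f j n) ≤ (c + ε) * α ^ 2) ∧
      (∀ i j, i ≠ j → ¬ g i j → ∑ n ∈ range N, w n * (f i n * f j n) = 0) ∧
      (∀ i, ∑ n ∈ range N, w n * (f i n * f i n)
        ≤ (c + ε + 1) * α * ∑ n ∈ range N, w n * f i n) := by
  have ht0 : (0 : ℝ) < (t : ℝ) := by exact_mod_cast ht
  have hne : (t : ℝ) ≠ 0 := ht0.ne'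
  -- the mean
  have hmean : ∀ i, ∑ n ∈ range N, w n * ((∑ a ∈ S i, X a n) / t)
      = (∑ a ∈ S i, ∑ n ∈ range N, w n * X a n) / t := by
    intro i
    rw [sum_comm, sum_div]
    refine sum_congr rfl (fun n _ => ?_)
    rw [← mul_sum]; ring
  have hpair : ∀ i j, ∑ n ∈ range N, w n * ((∑ a ∈ S i, X a n) / t * ((∑ b ∈ S j, X b n) / t))
      = (∑ a ∈ S i, ∑ b ∈ S j, ∑ n ∈ range N, w n * (X a n * X b n)) / (t : ℝ) ^ 2 := by
    intro i j
    have h1 : ∀ n, w n * ((∑ a ∈ S i, X a n) / t * ((∑ b ∈ S j, X b n) / t))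
        = (∑ a ∈ S i, ∑ b ∈ S j, w n * (X a n * X b n)) / (t : ℝ) ^ 2 := by
      intro n
      have h2 : ∑ a ∈ S i, ∑ b ∈ S j, w n * (X a n * X b n)
          = w n * ((∑ a ∈ S i, X a n) * (∑ b ∈ S j, X b n)) := by
        rw [sum_mul_sum, mul_sum]
        refine sum_congr rfl (fun a _ => ?_)
        rw [mul_sum]
      rw [h2]
      field_simp
    rw [sum_congr rfl (fun n _ => h1 n), ← sum_div]
    congr 1
    rw [sum_comm]
    refine sum_congr rfl (fun a _ => ?_)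
    rw [sum_comm]
  refine ⟨fun i n => (∑ a ∈ S i, X a n) / t, ?_, ?_, ?_, ?_, ?_⟩
  · intro i n
    exact div_nonneg (sum_nonneg (fun a _ => (hX a n).1)) ht0.le
  · intro i
    rw [hmean i, le_div_iff₀ ht0]
    calc α * t = ∑ a ∈ S i, α := by rw [sum_const, hcard i, nsmul_eq_mul]; ring
      _ ≤ ∑ a ∈ S i, ∑ n ∈ range N, w n * X a n := sum_le_sum (fun a ha => hXm i a ha)
  · intro i j hij
    rw [hpair i j, div_le_iff₀ (by positivity)]
    calc ∑ a ∈ S i, ∑ b ∈ S j, ∑ n ∈ range N, w n * (X a n * X b n)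
        ≤ ∑ a ∈ S i, ∑ b ∈ S j, (c + ε) * α ^ 2 := by
          refine sum_le_sum (fun a ha => sum_le_sum (fun b hb => ?_))
          refine hXp i j a ha b hb ?_
          rintro rfl
          exact (Finset.disjoint_left.mp (hdisj i j hij)) ha hb
      _ = (c + ε) * α ^ 2 * (t : ℝ) ^ 2 := by
          simp only [sum_const, hcard, nsmul_eq_mul]; ring
  · intro i j hij hng
    rw [hpair i j]
    have : ∑ a ∈ S i, ∑ b ∈ S j, ∑ n ∈ range N, w n * (X a n * X b n) = 0 := by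
      refine sum_eq_zero (fun a ha => sum_eq_zero (fun b hb => ?_))
      refine hXz i j a ha b hb ?_ (fun h => hng (hg i j hij a ha b hb h))
      rintro rfl
      exact (Finset.disjoint_left.mp (hdisj i j hij)) ha hb
    rw [this, zero_div]
  · intro i
    rw [hpair i i, hmean i]
    classical
    have h1 : ∑ a ∈ S i, ∑ b ∈ S i, ∑ n ∈ range N, w n * (X a n * X b n)
        ≤ (c + ε) * α ^ 2 * (t : ℝ) ^ 2 + ∑ a ∈ S i, ∑ n ∈ range N, w n * X a n := by
      calc ∑ a ∈ S i, ∑ b ∈ S i, ∑ n ∈ range N, w n * (X a n * X b n)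
          ≤ ∑ a ∈ S i, ∑ b ∈ S i, ((c + ε) * α ^ 2 +
              (if a = b then ∑ n ∈ range N, w n * X a n else 0)) := by
            refine sum_le_sum (fun a ha => sum_le_sum (fun b hb => ?_))
            by_cases hab : a = b
            · subst hab
              rw [if_pos rfl]
              have h2 : ∑ n ∈ range N, w n * (X a n * X a n) ≤ ∑ n ∈ range N, w n * X a n := by
                refine sum_le_sum (fun n _ => mul_le_mul_of_nonneg_left ?_ (hw n))
                have := hX a n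
                nlinarith
              have h3 : 0 ≤ (c + ε) * α ^ 2 := by positivity
              linarith
            · rw [if_neg hab, add_zero]
              exact hXp i i a ha b hb hab
        _ = (c + ε) * α ^ 2 * (t : ℝ) ^ 2 + ∑ a ∈ S i, ∑ n ∈ range N, w n * X a n := by
            simp only [sum_add_distrib, sum_const, hcard, nsmul_eq_mul]
            congr 1
            · ring
            · refine sum_congr rfl (fun a ha => ?_)
              rw [sum_ite_eq, if_pos ha]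
    set m := ∑ a ∈ S i, ∑ n ∈ range N, w n * X a n with hm
    have hmα : α * t ≤ m := by
      calc α * t = ∑ a ∈ S i, α := by rw [sum_const, hcard i, nsmul_eq_mul]; ring
        _ ≤ m := sum_le_sum (fun a ha => hXm i a ha)
    rw [div_le_iff₀ (by positivity)]
    have h4 : (c + ε + 1) * α * (m / t) * (t : ℝ) ^ 2 = (c + ε + 1) * α * m * t := by
      field_simp
    rw [h4]
    have hm0 : 0 ≤ m := le_trans (by positivity) hmα
    have h5 : (c + ε) * α ^ 2 * (t : ℝ) ^ 2 ≤ (c + ε) * α * m * t := by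
      have : (c + ε) * α * t * (α * t) ≤ (c + ε) * α * t * m :=
        mul_le_mul_of_nonneg_left hmα (by positivity)
      nlinarith
    have h6 : m ≤ α * m * t := by
      have : m * 1 ≤ m * (t * α) := mul_le_mul_of_nonneg_left hH hm0
      nlinarith
    nlinarith

open Classical in
theorem ker_pattern {V : Type*} (G₁ G₂ : V → V → Prop) (c : ℝ) (hc : 0 < c)
    (h₁ : Ker G₁ c) (h₂ : Ker G₂ c) (r : ℕ) (ε : ℝ) (hε : 0 < ε) (hε1 : ε ≤ 1) :
    ∃ t₀ : ℕ, ∀ t : ℕ, t₀ ≤ t → ∀ S : Fin r → Finset V, (∀ i, (S i).card = t) →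
      (∀ i j, i ≠ j → Disjoint (S i) (S j)) →
      ∀ g₁ g₂ : Fin r → Fin r → Prop,
        (∀ i j, i ≠ j → ∀ a ∈ S i, ∀ b ∈ S j, (G₁ a b → g₁ i j) ∧ (G₂ a b → g₂ i j)) →
        (r : ℝ) * ((r : ℝ) - (c + 2) ^ 2) ≤ (c + ε) ^ 2 *
          (((univ : Finset (Fin r × Fin r)).filter
            (fun p => p.1 ≠ p.2 ∧ g₁ p.1 p.2 ∧ g₂ p.1 p.2)).card : ℝ) := by
  obtain ⟨K₁, hK₁⟩ := h₁ ε r hε
  obtain ⟨K₂, hK₂⟩ := h₂ ε r hε
  refine ⟨max K₁ K₂ + 1, fun t ht S hcard hdisj g₁ g₂ hg => ?_⟩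
  rcases Nat.eq_zero_or_pos r with hr | hr
  · subst hr
    simp
  have ht1 : 1 ≤ t := by omega
  have hr0 : (0 : ℝ) < (r : ℝ) := by exact_mod_cast hr
  have ht0 : (0 : ℝ) < (t : ℝ) := by exact_mod_cast ht1
  set A : Finset V := univ.biUnion S with hA
  have hAcard : A.card = r * t := by
    rw [hA, card_biUnion (fun i _ j _ hij => hdisj i j hij)]
    simp [hcard]
  have hmem : ∀ i, ∀ a ∈ S i, a ∈ A := fun i a ha => mem_biUnion.mpr ⟨i, mem_univ i, ha⟩
  have htA : t ≤ A.card := by rw [hAcard]; exact Nat.le_mul_of_pos_left t hr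
  obtain ⟨α, hα, hH₁, N, w, X, hw0, hw1, hX, hXm, hXp, hXz⟩ := hK₁ A
    (le_trans (by have := le_max_left K₁ K₂; omega) htA)
  obtain ⟨β, hβ, hH₂, M, v, Y, hv0, hv1, hY, hYm, hYp, hYz⟩ := hK₂ A
    (le_trans (by have := le_max_right K₁ K₂; omega) htA)
  have hcast : (A.card : ℝ) = (r : ℝ) * t := by rw [hAcard]; push_cast; ring
  have ha1 : 1 ≤ (t : ℝ) * α := by
    rw [hcast, mul_assoc] at hH₁
    have : (r : ℝ) * 1 ≤ (r : ℝ) * (t * α) := by linarith
    exact le_of_mul_le_mul_left this hr0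
  have hb1 : 1 ≤ (t : ℝ) * β := by
    rw [hcast, mul_assoc] at hH₂
    have : (r : ℝ) * 1 ≤ (r : ℝ) * (t * β) := by linarith
    exact le_of_mul_le_mul_left this hr0
  obtain ⟨f, hf0, hfm, hfp, hfz, hfd⟩ := kp_one G₁ c ε hc hε r t ht1 S hcard hdisj g₁
    (fun i j hij a ha b hb h => (hg i j hij a ha b hb).1 h) α hα ha1 N w X hw0 hX
    (fun i a ha => hXm a (hmem i a ha))
    (fun i j a ha b hb hab => hXp a (hmem i a ha) b (hmem j b hb) hab)
    (fun i j a ha b hb hab hn => hXz a (hmem i a ha) b (hmem j b hb) hab hn)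
  obtain ⟨g, hg0, hgm, hgp, hgz, hgd⟩ := kp_one G₂ c ε hc hε r t ht1 S hcard hdisj g₂
    (fun i j hij a ha b hb h => (hg i j hij a ha b hb).2 h) β hβ hb1 M v Y hv0 hY
    (fun i a ha => hYm a (hmem i a ha))
    (fun i j a ha b hb hab => hYp a (hmem i a ha) b (hmem j b hb) hab)
    (fun i j a ha b hb hab hn => hYz a (hmem i a ha) b (hmem j b hb) hab hn)
  -- nonnegativity of the pair integrals
  have hP0 : ∀ i j, 0 ≤ ∑ n ∈ range N, w n * (f i n * f j n) := fun i j =>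
    sum_nonneg (fun n _ => mul_nonneg (hw0 n) (mul_nonneg (hf0 i n) (hf0 j n)))
  have hQ0 : ∀ i j, 0 ≤ ∑ n ∈ range M, v n * (g i n * g j n) := fun i j =>
    sum_nonneg (fun n _ => mul_nonneg (hv0 n) (mul_nonneg (hg0 i n) (hg0 j n)))
  set B : ℝ := ∑ i, (∑ n ∈ range N, w n * f i n) * (∑ n ∈ range M, v n * g i n) with hB
  have hBlow : (r : ℝ) * (α * β) ≤ B := by
    calc (r : ℝ) * (α * β) = ∑ _i : Fin r, α * β := by simp
      _ ≤ B := sum_le_sum (fun i _ => mul_le_mul (hfm i) (hgm i) hβ.le (le_trans hα.le (hfm i)))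
  -- Cauchy-Schwarz
  have hCS : B ^ 2 ≤ ∑ i, ∑ j, (∑ n ∈ range N, w n * (f i n * f j n)) *
      (∑ n ∈ range M, v n * (g i n * g j n)) := by
    have h1 := kp_cs (range N ×ˢ range M) (fun p => w p.1 * v p.2)
      (fun p => ∑ i, f i p.1 * g i p.2)
      (fun p _ => mul_nonneg (hw0 p.1) (hv0 p.2))
      (by
        rw [sum_product]
        rw [show ∑ x ∈ range N, ∑ y ∈ range M, w (x, y).1 * v (x, y).2
          = (∑ x ∈ range N, w x) * (∑ y ∈ range M, v y) by rw [sum_mul_sum]]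
        exact mul_le_one₀ hw1 (sum_nonneg (fun y _ => hv0 y)) hv1)
    have h2 : ∑ p ∈ range N ×ˢ range M, (w p.1 * v p.2) * (∑ i, f i p.1 * g i p.2) = B := by
      calc ∑ p ∈ range N ×ˢ range M, (w p.1 * v p.2) * (∑ i, f i p.1 * g i p.2)
          = ∑ p ∈ range N ×ˢ range M, ∑ i, (w p.1 * f i p.1) * (v p.2 * g i p.2) := by
            refine sum_congr rfl (fun p _ => ?_)
            rw [mul_sum]
            exact sum_congr rfl (fun i _ => by ring)
        _ = ∑ i, ∑ p ∈ range N ×ˢ range M, (w p.1 * f i p.1) * (v p.2 * g i p.2) := sum_comm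
        _ = B := by
            rw [hB]
            refine sum_congr rfl (fun i _ => ?_)
            rw [sum_product, sum_mul_sum]
    have h3 : ∑ p ∈ range N ×ˢ range M, (w p.1 * v p.2) * (∑ i, f i p.1 * g i p.2) ^ 2
        = ∑ i, ∑ j, (∑ n ∈ range N, w n * (f i n * f j n)) *
          (∑ n ∈ range M, v n * (g i n * g j n)) := by
      calc ∑ p ∈ range N ×ˢ range M, (w p.1 * v p.2) * (∑ i, f i p.1 * g i p.2) ^ 2
          = ∑ p ∈ range N ×ˢ range M, ∑ i, ∑ j,
              (w p.1 * (f i p.1 * f j p.1)) * (v p.2 * (g i p.2 * g j p.2)) := by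
            refine sum_congr rfl (fun p _ => ?_)
            rw [sq, sum_mul_sum, mul_sum]
            refine sum_congr rfl (fun i _ => ?_)
            rw [mul_sum]
            exact sum_congr rfl (fun j _ => by ring)
        _ = ∑ i, ∑ j, ∑ p ∈ range N ×ˢ range M,
              (w p.1 * (f i p.1 * f j p.1)) * (v p.2 * (g i p.2 * g j p.2)) := by
            rw [sum_comm]
            refine sum_congr rfl (fun i _ => ?_)
            rw [sum_comm]
        _ = _ := by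
            refine sum_congr rfl (fun i _ => sum_congr rfl (fun j _ => ?_))
            rw [sum_product, sum_mul_sum]
    rw [h2, h3] at h1
    exact h1
  -- upper bound for the pair sum
  set T := ((univ : Finset (Fin r × Fin r)).filter
            (fun p => p.1 ≠ p.2 ∧ g₁ p.1 p.2 ∧ g₂ p.1 p.2)) with hT
  have hup : ∑ i, ∑ j, (∑ n ∈ range N, w n * (f i n * f j n)) *
      (∑ n ∈ range M, v n * (g i n * g j n))
      ≤ (T.card : ℝ) * ((c + ε) ^ 2 * (α * β) ^ 2) + (c + 2) ^ 2 * (α * β) * B := by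
    have h1 : ∀ i j : Fin r, (∑ n ∈ range N, w n * (f i n * f j n)) *
        (∑ n ∈ range M, v n * (g i n * g j n))
        ≤ (if i ≠ j ∧ g₁ i j ∧ g₂ i j then (c + ε) ^ 2 * (α * β) ^ 2 else 0)
          + (if i = j then (c + 2) ^ 2 * (α * β) *
              ((∑ n ∈ range N, w n * f i n) * (∑ n ∈ range M, v n * g i n)) else 0) := by
      intro i j
      by_cases hij : i = j
      · subst hij
        rw [if_neg (by simp), if_pos rfl, zero_add]
        have hm1 : 0 ≤ ∑ n ∈ range N, w n * f i n := le_trans hα.le (hfm i)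
        have hm2 : 0 ≤ ∑ n ∈ range M, v n * g i n := le_trans hβ.le (hgm i)
        calc (∑ n ∈ range N, w n * (f i n * f i n)) * (∑ n ∈ range M, v n * (g i n * g i n))
            ≤ ((c + ε + 1) * α * ∑ n ∈ range N, w n * f i n) *
                ((c + ε + 1) * β * ∑ n ∈ range M, v n * g i n) :=
              mul_le_mul (hfd i) (hgd i) (hQ0 i i) (by positivity)
          _ = (c + ε + 1) ^ 2 * ((α * β) *
                ((∑ n ∈ range N, w n * f i n) * (∑ n ∈ range M, v n * g i n))) := by ring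
          _ ≤ (c + 2) ^ 2 * ((α * β) *
                ((∑ n ∈ range N, w n * f i n) * (∑ n ∈ range M, v n * g i n))) := by
              refine mul_le_mul_of_nonneg_right ?_ (by positivity)
              exact pow_le_pow_left₀ (by positivity) (by linarith) 2
          _ = _ := by ring
      · rw [if_neg hij, add_zero]
        by_cases h1 : g₁ i j
        · by_cases h2 : g₂ i j
          · rw [if_pos ⟨hij, h1, h2⟩]
            calc (∑ n ∈ range N, w n * (f i n * f j n)) *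
                  (∑ n ∈ range M, v n * (g i n * g j n))
                ≤ ((c + ε) * α ^ 2) * ((c + ε) * β ^ 2) :=
                  mul_le_mul (hfp i j hij) (hgp i j hij) (hQ0 i j) (by positivity)
              _ = _ := by ring
          · rw [if_neg (fun h => h2 h.2.2), hgz i j hij h2, mul_zero]
        · rw [if_neg (fun h => h1 h.2.1), hfz i j hij h1, zero_mul]
    calc ∑ i, ∑ j, (∑ n ∈ range N, w n * (f i n * f j n)) *
          (∑ n ∈ range M, v n * (g i n * g j n))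
        ≤ ∑ i : Fin r, ∑ j : Fin r,
          ((if i ≠ j ∧ g₁ i j ∧ g₂ i j then (c + ε) ^ 2 * (α * β) ^ 2 else 0)
          + (if i = j then (c + 2) ^ 2 * (α * β) *
              ((∑ n ∈ range N, w n * f i n) * (∑ n ∈ range M, v n * g i n)) else 0)) :=
          sum_le_sum (fun i _ => sum_le_sum (fun j _ => h1 i j))
      _ = (∑ i : Fin r, ∑ j : Fin r,
            (if i ≠ j ∧ g₁ i j ∧ g₂ i j then (c + ε) ^ 2 * (α * β) ^ 2 else 0))
          + ∑ i : Fin r, (c + 2) ^ 2 * (α * β) *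
              ((∑ n ∈ range N, w n * f i n) * (∑ n ∈ range M, v n * g i n)) := by
          rw [← sum_add_distrib]
          refine sum_congr rfl (fun i _ => ?_)
          rw [sum_add_distrib]
          congr 1
          rw [sum_ite_eq, if_pos (mem_univ i)]
      _ = (T.card : ℝ) * ((c + ε) ^ 2 * (α * β) ^ 2) + (c + 2) ^ 2 * (α * β) * B := by
          congr 1
          · rw [← sum_product', univ_product_univ, ← sum_filter, sum_const, nsmul_eq_mul]
          · rw [hB, mul_sum]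
  have hmain : B ^ 2 ≤ (T.card : ℝ) * ((c + ε) ^ 2 * (α * β) ^ 2) + (c + 2) ^ 2 * (α * β) * B :=
    le_trans hCS hup
  have hαβ : 0 < α * β := mul_pos hα hβ
  by_cases hrC : (r : ℝ) ≤ (c + 2) ^ 2
  · have h1 : (r : ℝ) * ((r : ℝ) - (c + 2) ^ 2) ≤ 0 :=
      mul_nonpos_of_nonneg_of_nonpos hr0.le (by linarith)
    have h2 : (0 : ℝ) ≤ (c + ε) ^ 2 * (T.card : ℝ) := by positivity
    linarith
  · push Not at hrC
    have h1 : ((r : ℝ) * (α * β)) * (((r : ℝ) - (c + 2) ^ 2) * (α * β))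
        ≤ B * (B - (c + 2) ^ 2 * (α * β)) := by
      refine mul_le_mul hBlow ?_ ?_ ?_
      · nlinarith
      · exact mul_nonneg (by linarith) hαβ.le
      · exact le_trans (by positivity) hBlow
    have h2 : (α * β) ^ 2 * ((r : ℝ) * ((r : ℝ) - (c + 2) ^ 2))
        ≤ (α * β) ^ 2 * ((c + ε) ^ 2 * (T.card : ℝ)) := by nlinarith
    exact le_of_mul_le_mul_left h2 (by positivity)

end BVD
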