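import Pool.Agent.helper24.BVD.KerBoth
import Pool.Agent.helper24.BVD.Final
import Pool.Agent.helper31.BVM.C01

/-!
# BVD-KerRatio: the Maynard-Tao kernels for the two equations of MP_81c801

PROOF of `ker_of_weights` (compare `Ratio_dens` in `Ratio.lean`, same scaling of the vertices): given `ε`, `H` take
`K` from `BVM.weights_of_BV hBV ε H hε`.  For `A` with at least `K` elements take `N₀, a` from `Ratio_scale A`
(`a r = N₀ r`, positive integers, injective), forms `a r n + b₀`, `r ∈ {x // x ∈ A}`, admissible as in `Ratio_dens`.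
`HasWeights` gives `α`.  Not good pairs: for `r ≠ s` with `¬ G r s` the set of `n` with both forms prime is
finite (contrapositive of `hG`), so there is `N₁` beyond which it is empty, for all pairs (finitely many).  Take
`N ≥ N₁` and `w` from `HasWeights`; define `w' n = if n ∈ Ico N (2N) then w n else 0`, total length `2 N`,
`X r n = if h : r ∈ A then ip (a ⟨r,h⟩) b₀ n else 0`; `∑_{n < 2N} w' n * y n = ∑_{n ∈ Ico N (2N)} w n * y n`
(`Finset.sum_ite_mem`/`Finset.sum_filter`, `Ico N (2N) ⊆ range (2N)`).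
`ker_GM`, `ker_GP`: `b₀ = 1`, `b₀ = -1` with `Ratio_good_M`, `Ratio_good_P` as in `dens_GM`, `dens_GP`.
`dens_both16`: `ker_both` with `c = 4`, `1 / 4 ^ 2 = 1/16`.
-/

open Finset

namespace BVD

theorem ker_of_weights (hBV : BVM.BVInput) (G : Qpos → Qpos → Prop) (b₀ : ℤ)
    (hb₀ : ∀ p : ℕ, p.Prime → ¬ (p : ℤ) ∣ b₀) (hb₁ : b₀ ≠ 0)
    (hG : ∀ (r s : Qpos) (a b : ℕ), 0 < a → 0 < b → (a : ℚ) / b = r.1 / s.1 →
      {n : ℕ | BVM.PrimeAt a b₀ n ∧ BVM.PrimeAt b b₀ n}.Infinite → G r s) :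
    Ker G 4 := by
  classical
  intro ε H hε
  obtain ⟨K, hK⟩ := BVM.weights_of_BV hBV ε H hε
  refine ⟨K, fun A hA => ?_⟩
  obtain ⟨M, hM, a, ha⟩ := Ratio_scale A
  have hMq : (0 : ℚ) < M := by exact_mod_cast hM
  have hpos : ∀ r : {x // x ∈ A}, 0 < a r := by
    intro r
    have h1 : (0 : ℚ) < (a r : ℚ) := by
      rw [ha r]
      exact mul_pos hMq r.1.2
    exact_mod_cast h1
  have hadm : BVM.Adm a (fun _ => b₀) := by
    refine ⟨hpos, ?_, ?_⟩
    · intro i j hij h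
      apply hij
      have h1 : (a i : ℤ) = a j := mul_right_cancel₀ hb₁ h
      have h2 : (a i : ℚ) = a j := by exact_mod_cast h1
      rw [ha i, ha j] at h2
      have h3 := mul_left_cancel₀ hMq.ne' h2
      exact Subtype.ext (Subtype.ext h3)
    · intro p hp
      refine ⟨0, ?_⟩
      intro i hi
      apply hb₀ p hp
      simpa using hi
  obtain ⟨α, hα, hH, hW⟩ := hK {x // x ∈ A} a (fun _ => b₀) hadm
    (by rw [Fintype.card_coe]; exact hA)
  rw [Fintype.card_coe] at hH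
  have hbad : ∃ N₁ : ℕ, ∀ n, N₁ ≤ n → ∀ i j : {x // x ∈ A}, ¬ G i.1 j.1 →
      BVM.ip (a i) b₀ n * BVM.ip (a j) b₀ n = 0 := by
    have hfin : ∀ q : {x // x ∈ A} × {x // x ∈ A}, ∃ M₁ : ℕ, ∀ n, M₁ ≤ n →
        ¬ G q.1.1 q.2.1 → BVM.ip (a q.1) b₀ n * BVM.ip (a q.2) b₀ n = 0 := by
      intro q
      by_cases hq : G q.1.1 q.2.1
      · exact ⟨0, fun n _ h => absurd hq h⟩
      · have h1 : ({n : ℕ | BVM.PrimeAt (a q.1) b₀ n ∧ BVM.PrimeAt (a q.2) b₀ n}).Finite := by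
          by_contra hinf
          apply hq
          refine hG q.1.1 q.2.1 (a q.1) (a q.2) (hpos _) (hpos _) ?_ hinf
          rw [ha, ha]
          have : (q.2.1.1 : ℚ) ≠ 0 := q.2.1.2.ne'
          field_simp
        obtain ⟨M₁, hM₁⟩ := h1.bddAbove
        refine ⟨M₁ + 1, fun n hn _ => ?_⟩
        have h2 : ¬ (BVM.PrimeAt (a q.1) b₀ n ∧ BVM.PrimeAt (a q.2) b₀ n) := by
          intro h3
          have h4 : n ≤ M₁ := hM₁ h3
          omega
        unfold BVM.ip
        by_cases h3 : BVM.PrimeAt (a q.1) b₀ n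
        · have h4 : ¬ BVM.PrimeAt (a q.2) b₀ n := fun h => h2 ⟨h3, h⟩
          rw [if_neg h4, mul_zero]
        · rw [if_neg h3, zero_mul]
    choose f hf using hfin
    refine ⟨∑ q, f q, fun n hn i j hij => ?_⟩
    exact hf (i, j) n (le_trans (Finset.single_le_sum (fun _ _ => Nat.zero_le _)
      (Finset.mem_univ (i, j))) hn) hij
  obtain ⟨N₁, hN₁⟩ := hbad
  obtain ⟨N, hN, w, hw0, hw1, hw2, hw3⟩ := hW N₁
  have hsum : ∀ y : ℕ → ℝ, ∑ n ∈ range (2 * N), (if n ∈ Ico N (2 * N) then w n else 0) * y n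
      = ∑ n ∈ Ico N (2 * N), w n * y n := by
    intro y
    have h1 : Ico N (2 * N) ⊆ range (2 * N) := by
      intro n hn
      rw [Finset.mem_range]
      exact (Finset.mem_Ico.1 hn).2
    rw [← Finset.sum_subset h1 (fun n _ hn => by rw [if_neg hn, zero_mul])]
    exact Finset.sum_congr rfl fun n hn => by rw [if_pos hn]
  have hX : ∀ (r : Qpos) (hr : r ∈ A) (n : ℕ),
      (if h : r ∈ A then BVM.ip (a ⟨r, h⟩) b₀ n else 0) = BVM.ip (a ⟨r, hr⟩) b₀ n := by
    intro r hr n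
    rw [dif_pos hr]
  refine ⟨α, hα, hH, 2 * N, fun n => if n ∈ Ico N (2 * N) then w n else 0,
    fun r n => if h : r ∈ A then BVM.ip (a ⟨r, h⟩) b₀ n else 0, ?_, ?_, ?_, ?_, ?_, ?_⟩
  · intro n
    dsimp only
    split_ifs
    · exact hw0 n
    · exact le_rfl
  · have h1 := hsum (fun _ => 1)
    simp only [mul_one] at h1
    rw [h1]
    exact hw1
  · intro r n
    dsimp only
    split_ifs with h
    · exact ⟨BVM.ip_nonneg _ _ _, BVM.ip_le_one _ _ _⟩
    · exact ⟨le_rfl, zero_le_one⟩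
  · intro r hr
    rw [hsum]
    refine (hw2 ⟨r, hr⟩).trans (le_of_eq ?_)
    refine Finset.sum_congr rfl fun n _ => ?_
    dsimp only
    rw [hX r hr]
  · intro r hr t ht hrt
    rw [hsum]
    refine (le_of_eq ?_).trans (hw3 ⟨r, hr⟩ ⟨t, ht⟩ (fun h => hrt (congrArg Subtype.val h)))
    refine Finset.sum_congr rfl fun n _ => ?_
    dsimp only
    rw [hX r hr, hX t ht]
  · intro r hr t ht _ hG'
    rw [hsum]
    refine Finset.sum_eq_zero fun n hn => ?_
    dsimp only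
    rw [hX r hr, hX t ht,
      hN₁ n (hN.trans (Finset.mem_Ico.1 hn).1) ⟨r, hr⟩ ⟨t, ht⟩ hG', mul_zero]

theorem ker_GM (hBV : BVM.BVInput) : Ker GM 4 := by
  refine ker_of_weights hBV GM 1 ?_ one_ne_zero ?_
  · intro p hp h
    have : (p : ℤ) = 1 := Int.eq_one_of_dvd_one (by positivity) h
    exact hp.one_lt.ne' (by exact_mod_cast this)
  · intro r s a b ha hb hab h
    have := Ratio_good_M ha hb h
    unfold GM
    rwa [← hab]

theorem ker_GP (hBV : BVM.BVInput) : Ker GP 4 := by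
  refine ker_of_weights hBV GP (-1) ?_ (by norm_num) ?_
  · intro p hp h
    have h' : (p : ℤ) ∣ 1 := (dvd_neg).mp h
    have : (p : ℤ) = 1 := Int.eq_one_of_dvd_one (by positivity) h'
    exact hp.one_lt.ne' (by exact_mod_cast this)
  · intro r s a b ha hb hab h
    have := Ratio_good_P ha hb h
    unfold GP
    rwa [← hab]

theorem dens_both16 (hBV : BVM.BVInput) : Dens (fun r s => GP r s ∧ GM r s) (1 / 16) := by
  have h := ker_both GP GM 4 (by norm_num) (ker_GP hBV) (ker_GM hBV)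
  have e : (1 : ℝ) / 4 ^ 2 = 1 / 16 := by norm_num
  rwa [e] at h

/-- Every large finite set of positive rationals has at least `(1/16 - ε) |A|²` ordered pairs of
distinct elements whose ratio satisfies both assertions of Q1. -/
theorem bothDensity16 (hBV : BVM.BVInput) (ε : ℝ) (hε : 0 < ε) :
    ∃ K : ℕ, ∀ A : Finset ℚ, (∀ r ∈ A, 0 < r) → K ≤ A.card →
      (1 / 16 - ε) * (A.card : ℝ) ^ 2 ≤
        (({p : ℚ × ℚ | p.1 ∈ A ∧ p.2 ∈ A ∧ p.1 ≠ p.2 ∧
          {x : ℕ × ℕ | x.1.Prime ∧ x.2.Prime ∧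
            ((x.1 : ℚ) + 1) / ((x.2 : ℚ) + 1) = p.1 / p.2}.Infinite ∧
          {x : ℕ × ℕ | x.1.Prime ∧ x.2.Prime ∧
            ((x.1 : ℚ) - 1) / ((x.2 : ℚ) - 1) = p.1 / p.2}.Infinite}).ncard : ℝ) :=
  dens_rat (fun r s => GP r s ∧ GM r s) (fun r => RepP r ∧ RepM r) (1 / 16) (fun _ _ h => h)
    (dens_both16 hBV) ε hε

end BVD
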