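import Pool.Agent.helper24.BVD.Defs

/-!
# BVD-Ramsey: R(5,5) ≤ 70

Proofs by helper11.

PROOF.  Erdős-Szekeres: for all `m n`, every symmetric relation on a finite set with at least
`Nat.choose (m+n) m` elements contains a set of `m+1` elements pairwise in relation or a set of `n+1`
elements pairwise (at distinct elements) not in relation.  Induction on `m + n` (choose a vertex `v`;
Pascal: its neighbours number at least `choose (m+n-1) (m-1)` or its non-neighbours at least
`choose (m+n-1) m`).  For `m = n = 4`: `choose 8 4 = 70`.
Statement for tuples: a 70-tuple `x` which is a clique for the relation `¬ (G₁ ∧ G₂)` has five positions at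
which it is a clique for `¬ G₁` or for `¬ G₂` (apply the above on `Fin 70` with the relation
`¬ G₁ (x i) (x j)`; if `G₁ (x i) (x j)` holds then `G₂ (x i) (x j)` fails).
-/

open Finset

namespace BVD

theorem ramsey_general (m n : ℕ) {W : Type*} (R : W → W → Prop) (hR : ∀ a b, R a b → R b a)
    (S : Finset W) (hS : Nat.choose (m + n) m ≤ S.card) :
    (∃ T ⊆ S, T.card = m + 1 ∧ ∀ a ∈ T, ∀ b ∈ T, a ≠ b → R a b) ∨
    (∃ T ⊆ S, T.card = n + 1 ∧ ∀ a ∈ T, ∀ b ∈ T, a ≠ b → ¬ R a b) := by
  classical
  suffices H : ∀ N m n : ℕ, m + n = N → ∀ S : Finset W, Nat.choose (m + n) m ≤ S.card →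
      (∃ T ⊆ S, T.card = m + 1 ∧ ∀ a ∈ T, ∀ b ∈ T, a ≠ b → R a b) ∨
      (∃ T ⊆ S, T.card = n + 1 ∧ ∀ a ∈ T, ∀ b ∈ T, a ≠ b → ¬ R a b) from
    H (m + n) m n rfl S hS
  intro N
  induction N with
  | zero =>
    intro m n hmn S hS
    have hm : m = 0 := by omega
    have hn : n = 0 := by omega
    subst hm hn
    simp only [add_zero, Nat.choose_self] at hS
    obtain ⟨v, hv⟩ := Finset.card_pos.1 (show 0 < S.card by omega)
    left
    refine ⟨{v}, Finset.singleton_subset_iff.2 hv, by simp, ?_⟩
    intro a ha b hb hab
    rw [Finset.mem_singleton] at ha hb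
    exact absurd (ha.trans hb.symm) hab
  | succ N ih =>
    intro m n hmn S hS
    have hSpos : 0 < S.card := by
      have : 0 < Nat.choose (m + n) m := Nat.choose_pos (by omega)
      omega
    obtain ⟨v, hv⟩ := Finset.card_pos.1 hSpos
    rcases Nat.eq_zero_or_pos m with hm | hm
    · subst hm
      left
      refine ⟨{v}, Finset.singleton_subset_iff.2 hv, by simp, ?_⟩
      intro a ha b hb hab
      rw [Finset.mem_singleton] at ha hb
      exact absurd (ha.trans hb.symm) hab
    rcases Nat.eq_zero_or_pos n with hn | hn
    · subst hn
      right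
      refine ⟨{v}, Finset.singleton_subset_iff.2 hv, by simp, ?_⟩
      intro a ha b hb hab
      rw [Finset.mem_singleton] at ha hb
      exact absurd (ha.trans hb.symm) hab
    obtain ⟨m, rfl⟩ : ∃ k, m = k + 1 := ⟨m - 1, by omega⟩
    obtain ⟨n, rfl⟩ : ∃ k, n = k + 1 := ⟨n - 1, by omega⟩
    have hpas : Nat.choose (m + 1 + (n + 1)) (m + 1) =
        Nat.choose (m + (n + 1)) m + Nat.choose (m + 1 + n) (m + 1) := by
      have e : m + 1 + (n + 1) = (m + (n + 1)) + 1 := by omega
      rw [e, Nat.choose_succ_succ]
      congr 2
      omega
    have hcard := Finset.card_filter_add_card_filter_not (s := S.erase v) (fun w => R v w)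
    have herase : (S.erase v).card = S.card - 1 := Finset.card_erase_of_mem hv
    have hor : Nat.choose (m + (n + 1)) m ≤ ((S.erase v).filter (fun w => R v w)).card ∨
        Nat.choose (m + 1 + n) (m + 1) ≤ ((S.erase v).filter (fun w => ¬ R v w)).card := by
      by_contra hcon
      push Not at hcon
      omega
    rcases hor with h1 | h1
    · rcases ih m (n + 1) (by omega) _ h1 with ⟨T, hT, hc, hp⟩ | ⟨T, hT, hc, hp⟩
      · left
        have hvT : v ∉ T := by
          intro h
          have := hT h
          rw [Finset.mem_filter, Finset.mem_erase] at this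
          exact this.1.1 rfl
        refine ⟨insert v T, ?_, by rw [Finset.card_insert_of_notMem hvT, hc], ?_⟩
        · intro w hw
          rw [Finset.mem_insert] at hw
          rcases hw with rfl | hw
          · exact hv
          · have := hT hw
            rw [Finset.mem_filter, Finset.mem_erase] at this
            exact this.1.2
        · intro a ha b hb hab
          rw [Finset.mem_insert] at ha hb
          rcases ha with rfl | ha
          · rcases hb with rfl | hb
            · exact absurd rfl hab
            · have := hT hb
              rw [Finset.mem_filter] at this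
              exact this.2
          · rcases hb with rfl | hb
            · have := hT ha
              rw [Finset.mem_filter] at this
              exact hR _ _ this.2
            · exact hp a ha b hb hab
      · right
        refine ⟨T, ?_, hc, hp⟩
        intro w hw
        have := hT hw
        rw [Finset.mem_filter, Finset.mem_erase] at this
        exact this.1.2
    · rcases ih (m + 1) n (by omega) _ h1 with ⟨T, hT, hc, hp⟩ | ⟨T, hT, hc, hp⟩
      · left
        refine ⟨T, ?_, hc, hp⟩
        intro w hw
        have := hT hw
        rw [Finset.mem_filter, Finset.mem_erase] at this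
        exact this.1.2
      · right
        have hvT : v ∉ T := by
          intro h
          have := hT h
          rw [Finset.mem_filter, Finset.mem_erase] at this
          exact this.1.1 rfl
        refine ⟨insert v T, ?_, by rw [Finset.card_insert_of_notMem hvT, hc], ?_⟩
        · intro w hw
          rw [Finset.mem_insert] at hw
          rcases hw with rfl | hw
          · exact hv
          · have := hT hw
            rw [Finset.mem_filter, Finset.mem_erase] at this
            exact this.1.2
        · intro a ha b hb hab
          rw [Finset.mem_insert] at ha hb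
          rcases ha with rfl | ha
          · rcases hb with rfl | hb
            · exact absurd rfl hab
            · have := hT hb
              rw [Finset.mem_filter] at this
              exact this.2
          · rcases hb with rfl | hb
            · have := hT ha
              rw [Finset.mem_filter] at this
              exact fun h => this.2 (hR _ _ h)
            · exact hp a ha b hb hab

theorem ramsey_tuple {V : Type*} (G₁ G₂ : V → V → Prop) (h1 : ∀ a b, G₁ a b → G₁ b a)
    (h2 : ∀ a b, G₂ a b → G₂ b a) (x : Fin 70 → V)
    (hx : Clq (fun a b => ¬ (G₁ a b ∧ G₂ a b)) x) :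
    (∃ f : Fin 5 → Fin 70, Function.Injective f ∧ Clq (fun a b => ¬ G₁ a b) (x ∘ f)) ∨
    (∃ f : Fin 5 → Fin 70, Function.Injective f ∧ Clq (fun a b => ¬ G₂ a b) (x ∘ f)) := by
  have _ := h2
  have hc : Nat.choose (4 + 4) 4 ≤ (Finset.univ : Finset (Fin 70)).card := by
    rw [Finset.card_univ, Fintype.card_fin]
    decide
  rcases ramsey_general 4 4 (fun i j : Fin 70 => ¬ G₁ (x i) (x j))
      (fun a b h h' => h (h1 _ _ h')) Finset.univ hc with ⟨T, _, hT, hp⟩ | ⟨T, _, hT, hp⟩
  · left
    refine ⟨fun i => T.orderEmbOfFin hT i, (T.orderEmbOfFin hT).injective, ?_⟩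
    intro i j hij
    have hne : T.orderEmbOfFin hT i ≠ T.orderEmbOfFin hT j :=
      fun h => hij ((T.orderEmbOfFin hT).injective h)
    refine ⟨(hx _ _ hne).1, ?_⟩
    exact hp _ (T.orderEmbOfFin_mem hT i) _ (T.orderEmbOfFin_mem hT j) hne
  · right
    refine ⟨fun i => T.orderEmbOfFin hT i, (T.orderEmbOfFin hT).injective, ?_⟩
    intro i j hij
    have hne : T.orderEmbOfFin hT i ≠ T.orderEmbOfFin hT j :=
      fun h => hij ((T.orderEmbOfFin hT).injective h)
    refine ⟨(hx _ _ hne).1, ?_⟩
    have h3 := hp _ (T.orderEmbOfFin_mem hT i) _ (T.orderEmbOfFin_mem hT j) hne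
    have h4 := (hx _ _ hne).2
    intro h5
    apply h4
    refine ⟨?_, h5⟩
    by_contra h6
    exact h3 h6

end BVD
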