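import Pool.Agent.helper24.BVD.Defs

/-!
# BVD-Synd: multiplicative syndeticity in the integers

PROOF.  `R` is a set of positive integers such that every strictly increasing divisibility chain
`a_0 ∣ a_1 ∣ ... ∣ a_N` of `N + 1` distinct positive integers contains `i < j` with `a_j / a_i ∈ R`.  Choose
`m ≤ N` maximal such that there are integers `c_1,...,c_m ≥ 2` none of whose consecutive products
`c_i c_(i+1) ⋯ c_j` (`1 ≤ i ≤ j ≤ m`) lies in `R` (`m = 0` is possible, `m = N` is impossible: the chain
`1, c_1, c_1c_2, ...`).  Let `D` be the set of the products `c_i ⋯ c_m` (`1 ≤ i ≤ m + 1`, the empty product is 1).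
For `n ≥ 2` the list `c_1,...,c_m,n` has length `m + 1`, so some consecutive product is in `R`; it must
involve `n`, so it is `c_i ⋯ c_m n` with `c_i ⋯ c_m ∈ D`.
(Lists: `l : List ℕ`; consecutive product = product of an infix `l' <:+: l`, `l' ≠ []`.)
-/

open Finset

namespace BVD

/-- all entries are at least 2 and no consecutive product lies in `R` -/
private def SyndGood (R : Set ℕ) (l : List ℕ) : Prop :=
  (∀ c ∈ l, 2 ≤ c) ∧ ∀ l' : List ℕ, l' <:+: l → l' ≠ [] → l'.prod ∉ R

private theorem synd_prod_pos {l : List ℕ} (h : ∀ c ∈ l, 2 ≤ c) : 0 < l.prod := by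
  apply List.prod_pos
  intro c hc
  have := h c hc
  omega

private theorem synd_bound (R : Set ℕ) (N : ℕ)
    (h : ∀ a : ℕ → ℕ, (∀ i, 0 < a i) → (∀ i, a i ∣ a (i + 1)) → StrictMono a →
      ∃ i j : ℕ, i < j ∧ j ≤ N ∧ a j / a i ∈ R) (l : List ℕ) (hl : SyndGood R l)
    (hN : N ≤ l.length) : False := by
  obtain ⟨hl2, hinf⟩ := hl
  have hp : ∀ i, 0 < (l.take i).prod := fun i =>
    synd_prod_pos (fun c hc => hl2 c (List.mem_of_mem_take hc))
  set a : ℕ → ℕ := fun i => (l.take i).prod * 2 ^ (i - l.length) with ha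
  have hpos : ∀ i, 0 < a i := fun i => Nat.mul_pos (hp i) (by positivity)
  have hstep : ∀ i, ∃ c, 2 ≤ c ∧ a (i + 1) = a i * c := by
    intro i
    by_cases hi : i < l.length
    · refine ⟨l[i], hl2 _ (List.getElem_mem hi), ?_⟩
      have e1 : i + 1 - l.length = 0 := by omega
      have e2 : i - l.length = 0 := by omega
      simp only [ha, e1, e2, pow_zero, mul_one]
      rw [List.take_succ_eq_append_getElem hi, List.prod_append]
      simp
    · refine ⟨2, le_refl _, ?_⟩
      have e1 : i + 1 - l.length = (i - l.length) + 1 := by omega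
      simp only [ha]
      rw [e1, List.take_of_length_le (by omega), List.take_of_length_le (by omega), pow_succ]
      ring
  have hdvd : ∀ i, a i ∣ a (i + 1) := by
    intro i
    obtain ⟨c, _, hc⟩ := hstep i
    exact ⟨c, hc⟩
  have hmono : StrictMono a := by
    apply strictMono_nat_of_lt_succ
    intro i
    obtain ⟨c, hc2, hc⟩ := hstep i
    rw [hc]
    have := hpos i
    nlinarith
  obtain ⟨i, j, hij, hjN, hR⟩ := h a hpos hdvd hmono
  have hj : j ≤ l.length := by omega
  have e1 : j - l.length = 0 := by omega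
  have e2 : i - l.length = 0 := by omega
  have hsplit : (l.take j).prod = (l.take i).prod * ((l.take j).drop i).prod := by
    have e3 : l.take j = (l.take j).take i ++ (l.take j).drop i := (List.take_append_drop _ _).symm
    conv_lhs => rw [e3]
    rw [List.prod_append, List.take_take, min_eq_left (le_of_lt hij)]
  have hq : a j / a i = ((l.take j).drop i).prod := by
    simp only [ha, e1, e2, pow_zero, mul_one]
    rw [hsplit, Nat.mul_div_cancel_left _ (hp i)]
  rw [hq] at hR
  refine hinf ((l.take j).drop i) ?_ ?_ hR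
  · exact ((List.drop_suffix i (l.take j)).isInfix).trans (List.take_prefix j l).isInfix
  · intro h0
    have h1 := congrArg List.length h0
    rw [List.length_drop, List.length_take, List.length_nil] at h1
    omega

theorem synd (R : Set ℕ) (N : ℕ)
    (h : ∀ a : ℕ → ℕ, (∀ i, 0 < a i) → (∀ i, a i ∣ a (i + 1)) → StrictMono a →
      ∃ i j : ℕ, i < j ∧ j ≤ N ∧ a j / a i ∈ R) :
    ∃ D : Finset ℕ, (∀ d ∈ D, 0 < d) ∧ ∀ n : ℕ, 2 ≤ n → ∃ d ∈ D, d * n ∈ R := by
  classical
  have hex : ∃ m, ¬ ∃ l : List ℕ, SyndGood R l ∧ l.length = m :=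
    ⟨N, fun ⟨l, hl, hlen⟩ => synd_bound R N h l hl (by omega)⟩
  have h0 : ∃ l : List ℕ, SyndGood R l ∧ l.length = 0 := by
    refine ⟨[], ⟨by simp, ?_⟩, rfl⟩
    intro l' hl' hne
    exact absurd (List.infix_nil.1 hl') hne
  obtain ⟨m, hm, hm1⟩ : ∃ m, (∃ l : List ℕ, SyndGood R l ∧ l.length = m) ∧
      ¬ ∃ l : List ℕ, SyndGood R l ∧ l.length = m + 1 := by
    have hs := Nat.find_spec hex
    have hpos : Nat.find hex ≠ 0 := by
      intro h1
      rw [h1] at hs
      exact hs h0
    obtain ⟨m, hm⟩ := Nat.exists_eq_succ_of_ne_zero hpos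
    refine ⟨m, ?_, ?_⟩
    · have := Nat.find_min hex (m := m) (by omega)
      exact not_not.1 this
    · rw [hm] at hs
      exact hs
  obtain ⟨l, ⟨hl2, hinf⟩, hlen⟩ := hm
  refine ⟨(l.tails.map List.prod).toFinset, ?_, ?_⟩
  · intro d hd
    rw [List.mem_toFinset, List.mem_map] at hd
    obtain ⟨t, ht, rfl⟩ := hd
    rw [List.mem_tails] at ht
    exact synd_prod_pos (fun c hc => hl2 c (ht.subset hc))
  · intro n hn
    by_contra hcon
    push Not at hcon
    apply hm1
    refine ⟨l ++ [n], ⟨?_, ?_⟩, by simp [hlen]⟩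
    · intro c hc
      rw [List.mem_append, List.mem_singleton] at hc
      rcases hc with hc | rfl
      · exact hl2 c hc
      · exact hn
    · intro l' hl' hne
      rw [List.infix_concat_iff] at hl'
      rcases hl' with hl' | hl'
      · rw [List.suffix_concat_iff] at hl'
        rcases hl' with hl' | ⟨t, ht, hts⟩
        · exact absurd hl' hne
        · rw [ht, List.prod_append, List.prod_singleton]
          apply hcon
          rw [List.mem_toFinset, List.mem_map]
          exact ⟨t, (List.mem_tails _ _).2 hts, rfl⟩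
      · exact hinf l' hl' hne

end BVD
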