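import Pool.Agent.helper24.BVD.RatioDefs
import Pool.Agent.helper24.BVD.Both
import Pool.Agent.helper24.BVD.Synd

/-!
# BVD-Ratio: ratios of shifted primes from the pair density theorem

PROOFS.  `RepP_inv`, `RepM_inv`: swap the two primes (`(p-1)/(q-1) = r` with `r ≠ 0` gives
`(q-1)/(p-1) = r⁻¹`; note `p - 1 > 0` for primes).
`dens_GM`: let `A` be a finite set of positive rationals with at least `K` elements, `N` a common
denominator (the product of all denominators), `a r = N r` a positive integer (`(N * r.num / r.den)`, or choose it);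
`r ↦ a r` is injective.  The forms `a r * n + 1` (`r ∈ A`, index type `↥A`) satisfy `Adm` (`distinct`:
`a r ≠ a s`; `adm`: take `n = 0`, the values are 1).  If `GoodPair` holds for `(r,s)`: for infinitely many
`n` both `p = a r n + 1` and `q = a s n + 1` are primes, and `(p-1)/(q-1) = a r/a s = r/s` (`n ≥ 1`,
or drop `n = 0`); `n ↦ (p,q)` is injective, so `RepM (r/s)`.  `PDStmt` gives the bound; transport the count
from `↥A × ↥A` to `A ×ˢ A`.
`dens_GP`: the same with the forms `a r * n - 1` (values `-1` at `n = 0`): `(p+1)/(q+1) = a r/a s`.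
`dens_both`: `both` with `V = Qpos` (infinite).
`chain`: from `Dens F (1/69)` with `ε = 1/138`: `k₀`; `N = k₀ + 1`; a chain `a_0 < a_1 < ...` gives the set
`{a_0,...,a_N}` of positive rationals with `N + 1 ≥ k₀` elements, so a pair `i ≠ j` with `F (a_i) (a_j)`; by
symmetry `i < j` and the ratio `a_j/a_i` (an integer) satisfies both.
`syndetic`: `synd` with `R = {m | RepP m ∧ RepM m}`, and `n = 1` by `d * 2`.
-/

open Finset

namespace BVD

theorem RepP_inv {r : ℚ} (h : RepP r) : RepP r⁻¹ := by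
  have h2 := h.image (f := Prod.swap) (Prod.swap_injective.injOn)
  refine h2.mono ?_
  rintro x ⟨y, ⟨hy1, hy2, hy3⟩, rfl⟩
  refine ⟨hy2, hy1, ?_⟩
  rw [← hy3, inv_div]
  rfl

theorem RepM_inv {r : ℚ} (h : RepM r) : RepM r⁻¹ := by
  have h2 := h.image (f := Prod.swap) (Prod.swap_injective.injOn)
  refine h2.mono ?_
  rintro x ⟨y, ⟨hy1, hy2, hy3⟩, rfl⟩
  refine ⟨hy2, hy1, ?_⟩
  rw [← hy3, inv_div]
  rfl

theorem GP_symm (r s : Qpos) (h : GP r s) : GP s r := by
  unfold GP at *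
  have := RepP_inv h
  rwa [inv_div] at this

theorem GM_symm (r s : Qpos) (h : GM r s) : GM s r := by
  unfold GM at *
  have := RepM_inv h
  rwa [inv_div] at this

/-- Common denominators. -/
theorem Ratio_scale (A : Finset Qpos) : ∃ N : ℕ, 0 < N ∧ ∃ a : {x // x ∈ A} → ℕ,
    ∀ r, ((a r : ℕ) : ℚ) = (N : ℚ) * r.1.1 := by
  classical
  refine ⟨∏ r ∈ A, r.1.den, Finset.prod_pos (fun r _ => r.1.den_pos), ?_⟩
  have h : ∀ r : {x // x ∈ A}, ∃ m : ℕ, (m : ℚ) = ((∏ r ∈ A, r.1.den : ℕ) : ℚ) * r.1.1 := by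
    intro r
    obtain ⟨m, hm⟩ := Finset.dvd_prod_of_mem (fun r : Qpos => r.1.den) r.2
    refine ⟨m * r.1.1.num.natAbs, ?_⟩
    rw [hm]
    have hnum : 0 < r.1.1.num := Rat.num_pos.mpr r.1.2
    have h1 : ((r.1.1.num.natAbs : ℕ) : ℚ) = (r.1.1.num : ℚ) := by
      have : ((r.1.1.num.natAbs : ℕ) : ℤ) = r.1.1.num := Int.natAbs_of_nonneg hnum.le
      rw [← Int.cast_natCast, this]
    push_cast
    rw [h1, ← Rat.mul_den_eq_num]
    ring
  choose a ha using h
  exact ⟨a, ha⟩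

theorem Ratio_good_M {a b : ℕ} (ha : 0 < a) (hb : 0 < b)
    (h : {n : ℕ | BVM.PrimeAt a 1 n ∧ BVM.PrimeAt b 1 n}.Infinite) :
    RepM ((a : ℚ) / b) := by
  have hinj : Function.Injective (fun n : ℕ => ((a * n + 1, b * n + 1) : ℕ × ℕ)) := by
    intro n m hnm
    have h1 : a * n + 1 = a * m + 1 := (Prod.mk.inj hnm).1
    have h2 : a * n = a * m := by omega
    exact Nat.eq_of_mul_eq_mul_left ha h2
  refine (h.image (f := fun n : ℕ => ((a * n + 1, b * n + 1) : ℕ × ℕ)) hinj.injOn).mono ?_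
  rintro x ⟨n, ⟨h1, h2⟩, rfl⟩
  have e1 : ((a : ℤ) * n + 1).toNat = a * n + 1 := by
    have : ((a : ℤ) * n + 1) = ((a * n + 1 : ℕ) : ℤ) := by push_cast; ring
    rw [this]; exact Int.toNat_natCast _
  have e2 : ((b : ℤ) * n + 1).toNat = b * n + 1 := by
    have : ((b : ℤ) * n + 1) = ((b * n + 1 : ℕ) : ℤ) := by push_cast; ring
    rw [this]; exact Int.toNat_natCast _
  unfold BVM.PrimeAt at h1 h2
  rw [e1] at h1
  rw [e2] at h2
  have hn : n ≠ 0 := by
    rintro rfl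
    simp at h1
    exact Nat.not_prime_one h1
  refine ⟨h1, h2, ?_⟩
  have hnq : (n : ℚ) ≠ 0 := by exact_mod_cast hn
  have hbq : (b : ℚ) ≠ 0 := by exact_mod_cast hb.ne'
  push_cast
  field_simp
  ring

theorem Ratio_zero (a : ℕ) (h : BVM.PrimeAt a (-1) 0) : False := by
  unfold BVM.PrimeAt at h
  have e : ((a : ℤ) * ((0 : ℕ) : ℤ) + (-1)).toNat = 0 := by
    push_cast
    rw [mul_zero]
    rfl
  rw [e] at h
  exact Nat.not_prime_zero h

theorem Ratio_good_P {a b : ℕ} (ha : 0 < a) (hb : 0 < b)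
    (h : {n : ℕ | BVM.PrimeAt a (-1) n ∧ BVM.PrimeAt b (-1) n}.Infinite) :
    RepP ((a : ℚ) / b) := by
  have hinj : Set.InjOn (fun n : ℕ => ((a * n - 1, b * n - 1) : ℕ × ℕ))
      {n : ℕ | BVM.PrimeAt a (-1) n ∧ BVM.PrimeAt b (-1) n} := by
    intro n hn m hm hnm
    have h1 : a * n - 1 = a * m - 1 := (Prod.mk.inj hnm).1
    have hn0 : n ≠ 0 := by
      rintro rfl
      exact Ratio_zero a hn.1
    have hm0 : m ≠ 0 := by
      rintro rfl
      exact Ratio_zero a hm.1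
    have p1 : 0 < a * n := Nat.mul_pos ha (Nat.pos_of_ne_zero hn0)
    have p2 : 0 < a * m := Nat.mul_pos ha (Nat.pos_of_ne_zero hm0)
    have h2 : a * n = a * m := by omega
    exact Nat.eq_of_mul_eq_mul_left ha h2
  refine (h.image (f := fun n : ℕ => ((a * n - 1, b * n - 1) : ℕ × ℕ)) hinj).mono ?_
  rintro x ⟨n, ⟨h1, h2⟩, rfl⟩
  have hn0 : n ≠ 0 := by
    rintro rfl
    exact Ratio_zero a h1
  unfold BVM.PrimeAt at h1 h2
  have p1 : 0 < a * n := Nat.mul_pos ha (Nat.pos_of_ne_zero hn0)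
  have p2 : 0 < b * n := Nat.mul_pos hb (Nat.pos_of_ne_zero hn0)
  have e1 : ((a : ℤ) * n + (-1)).toNat = a * n - 1 := by
    have : ((a : ℤ) * n + (-1)) = ((a * n - 1 : ℕ) : ℤ) := by
      rw [Nat.cast_sub p1]; push_cast; ring
    rw [this]; exact Int.toNat_natCast _
  have e2 : ((b : ℤ) * n + (-1)).toNat = b * n - 1 := by
    have : ((b : ℤ) * n + (-1)) = ((b * n - 1 : ℕ) : ℤ) := by
      rw [Nat.cast_sub p2]; push_cast; ring
    rw [this]; exact Int.toNat_natCast _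
  rw [e1] at h1
  rw [e2] at h2
  refine ⟨h1, h2, ?_⟩
  have hnq : (n : ℚ) ≠ 0 := by exact_mod_cast hn0
  have hbq : (b : ℚ) ≠ 0 := by exact_mod_cast hb.ne'
  have c1 : ((a * n - 1 : ℕ) : ℚ) = a * n - 1 := by
    rw [Nat.cast_sub p1]; push_cast; ring
  have c2 : ((b * n - 1 : ℕ) : ℚ) = b * n - 1 := by
    rw [Nat.cast_sub p2]; push_cast; ring
  simp only
  rw [c1, c2]
  field_simp
  ring

theorem Ratio_mem_filter {α : Type*} {p : α → Prop} {d : DecidablePred p} {s : Finset α} {a : α} :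
    a ∈ @Finset.filter α p d s ↔ a ∈ s ∧ p a := Finset.mem_filter

/-- Transport of the pair count. -/
theorem Ratio_dens (G : Qpos → Qpos → Prop) (b₀ : ℤ) (hb₀ : ∀ p : ℕ, p.Prime → ¬ (p : ℤ) ∣ b₀)
    (hb₁ : b₀ ≠ 0)
    (hG : ∀ (r s : Qpos) (a b : ℕ), 0 < a → 0 < b → (a : ℚ) / b = r.1 / s.1 →
      {n : ℕ | BVM.PrimeAt a b₀ n ∧ BVM.PrimeAt b b₀ n}.Infinite → G r s)
    (hPD : PDStmt) : Dens G (1 / 4) := by
  classical
  intro ε hε
  obtain ⟨K, hK⟩ := hPD ε hε
  refine ⟨K, ?_⟩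
  intro A hA
  obtain ⟨N, hN, a, ha⟩ := Ratio_scale A
  have hNq : (0 : ℚ) < N := by exact_mod_cast hN
  have hpos : ∀ r : {x // x ∈ A}, 0 < a r := by
    intro r
    have h1 : (0 : ℚ) < (a r : ℚ) := by
      rw [ha r]
      exact mul_pos hNq r.1.2
    exact_mod_cast h1
  have hadm : BVM.Adm a (fun _ => b₀) := by
    refine ⟨hpos, ?_, ?_⟩
    · intro i j hij h
      apply hij
      have h1 : (a i : ℤ) = a j := mul_right_cancel₀ hb₁ h
      have h2 : (a i : ℚ) = a j := by exact_mod_cast h1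
      rw [ha i, ha j] at h2
      have h3 := mul_left_cancel₀ hNq.ne' h2
      exact Subtype.ext (Subtype.ext h3)
    · intro p hp
      refine ⟨0, ?_⟩
      intro i hi
      apply hb₀ p hp
      simpa using hi
  have h1 := hK {x // x ∈ A} a (fun _ => b₀) hadm (by rw [Fintype.card_coe]; exact hA)
  rw [Fintype.card_coe] at h1
  refine h1.trans ?_
  have h2 : (((univ : Finset ({x // x ∈ A} × {x // x ∈ A})).filter
        (fun p => p.1 ≠ p.2 ∧ BVM.GoodPair a (fun _ => b₀) p.1 p.2)).card) ≤ pairs G A := by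
    unfold pairs
    refine Finset.card_le_card_of_injOn (fun p => (p.1.1, p.2.1)) ?_ ?_
    · intro p hp
      have hp' := (Finset.mem_filter.mp hp).2
      rw [Finset.mem_coe, Ratio_mem_filter]
      refine ⟨?_, ?_, ?_⟩
      · exact Finset.mem_product.mpr ⟨p.1.2, p.2.2⟩
      · intro h
        exact hp'.1 (Subtype.ext h)
      · refine hG p.1.1 p.2.1 (a p.1) (a p.2) (hpos _) (hpos _) ?_ hp'.2
        rw [ha, ha]
        have : (p.2.1.1 : ℚ) ≠ 0 := p.2.1.2.ne'
        field_simp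
    · intro p _ q _ hpq
      have h3 := Prod.mk.inj hpq
      exact Prod.ext (Subtype.ext h3.1) (Subtype.ext h3.2)
  exact_mod_cast h2

theorem dens_GM (hPD : PDStmt) : Dens GM (1 / 4) := by
  refine Ratio_dens GM 1 ?_ one_ne_zero ?_ hPD
  · intro p hp h
    have : (p : ℤ) = 1 := Int.eq_one_of_dvd_one (by positivity) h
    exact hp.one_lt.ne' (by exact_mod_cast this)
  · intro r s a b ha hb hab h
    have := Ratio_good_M ha hb h
    unfold GM
    rwa [← hab]

theorem dens_GP (hPD : PDStmt) : Dens GP (1 / 4) := by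
  refine Ratio_dens GP (-1) ?_ (by norm_num) ?_ hPD
  · intro p hp h
    have h' : (p : ℤ) ∣ 1 := (dvd_neg).mp h
    have : (p : ℤ) = 1 := Int.eq_one_of_dvd_one (by positivity) h'
    exact hp.one_lt.ne' (by exact_mod_cast this)
  · intro r s a b ha hb hab h
    have := Ratio_good_P ha hb h
    unfold GP
    rwa [← hab]

theorem dens_both (hPD : PDStmt) : Dens (fun r s => GP r s ∧ GM r s) (1 / 69) := by
  have : Infinite Qpos := by
    refine Infinite.of_injective (fun n : ℕ => (⟨(n : ℚ) + 1, by positivity⟩ : Qpos)) ?_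
    intro n m hnm
    have h1 : (n : ℚ) + 1 = m + 1 := congrArg Subtype.val hnm
    have h2 : (n : ℚ) = m := by linarith
    exact_mod_cast h2
  exact both GP GM GP_symm GM_symm (dens_GP hPD) (dens_GM hPD)

theorem chain (hPD : PDStmt) : ∃ N : ℕ, ∀ a : ℕ → ℕ, (∀ i, 0 < a i) →
    (∀ i, a i ∣ a (i + 1)) → StrictMono a →
    ∃ i j : ℕ, i < j ∧ j ≤ N ∧ RepP ((a j / a i : ℕ) : ℚ) ∧ RepM ((a j / a i : ℕ) : ℚ) := by
  classical
  obtain ⟨k₀, hk⟩ := dens_both hPD (1 / 138) (by norm_num)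
  refine ⟨k₀ + 1, ?_⟩
  intro a hpos hdvd hmono
  have hdv : ∀ i j, i ≤ j → a i ∣ a j := by
    intro i j hij
    induction j, hij using Nat.le_induction with
    | base => exact dvd_rfl
    | succ n _ ih => exact ih.trans (hdvd n)
  let f : ℕ → Qpos := fun i => ⟨(a i : ℚ), by exact_mod_cast hpos i⟩
  have hf : Function.Injective f := by
    intro i j hij
    have h1 : (a i : ℚ) = a j := congrArg Subtype.val hij
    exact hmono.injective (by exact_mod_cast h1)
  let A : Finset Qpos := (Finset.range (k₀ + 2)).image f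
  have hA : A.card = k₀ + 2 := by
    rw [Finset.card_image_of_injective _ hf, Finset.card_range]
  have h1 := hk A (by omega)
  have h2 : (0 : ℝ) < (1 / 69 - 1 / 138) * (A.card : ℝ) ^ 2 := by
    rw [hA]
    have : (0 : ℝ) < ((k₀ + 2 : ℕ) : ℝ) := by positivity
    positivity
  have h3 : (0 : ℝ) < (pairs (fun r s => GP r s ∧ GM r s) A : ℝ) := lt_of_lt_of_le h2 h1
  have h4 : 0 < pairs (fun r s => GP r s ∧ GM r s) A := by exact_mod_cast h3
  unfold pairs at h4
  obtain ⟨p, hp⟩ := Finset.card_pos.mp h4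
  rw [Ratio_mem_filter] at hp
  obtain ⟨hp1, hp2, hp3⟩ := hp
  obtain ⟨hpa, hpb⟩ := Finset.mem_product.mp hp1
  obtain ⟨i, hi, hi2⟩ := Finset.mem_image.mp hpa
  obtain ⟨j, hj, hj2⟩ := Finset.mem_image.mp hpb
  rw [Finset.mem_range] at hi hj
  have hij : i ≠ j := by
    rintro rfl
    exact hp2 (hi2.symm.trans hj2)
  have main : ∀ i j : ℕ, i < j → GP (f j) (f i) → GM (f j) (f i) →
      RepP ((a j / a i : ℕ) : ℚ) ∧ RepM ((a j / a i : ℕ) : ℚ) := by
    intro i j hlt hP hM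
    have hne : (a i : ℚ) ≠ 0 := by exact_mod_cast (hpos i).ne'
    have e : ((a j / a i : ℕ) : ℚ) = (a j : ℚ) / a i := Nat.cast_div (hdv i j hlt.le) hne
    rw [e]
    exact ⟨hP, hM⟩
  rw [← hi2, ← hj2] at hp3
  rcases lt_or_gt_of_ne hij with hlt | hlt
  · exact ⟨i, j, hlt, by omega, main i j hlt (GP_symm _ _ hp3.1) (GM_symm _ _ hp3.2)⟩
  · exact ⟨j, i, hlt, by omega, main j i hlt hp3.1 hp3.2⟩

/-- A finite set `D` of positive integers such that every positive integer `n` has a multiple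
`d n`, `d ∈ D`, that satisfies the full assertion of Q1. -/
theorem syndetic (hPD : PDStmt) : ∃ D : Finset ℕ, (∀ d ∈ D, 0 < d) ∧ ∀ n : ℕ, 1 ≤ n →
    ∃ d ∈ D, RepP ((d * n : ℕ) : ℚ) ∧ RepM ((d * n : ℕ) : ℚ) := by
  classical
  obtain ⟨N, hN⟩ := chain hPD
  obtain ⟨D, hD1, hD2⟩ := synd {m : ℕ | RepP (m : ℚ) ∧ RepM (m : ℚ)} N
    (by
      intro a h1 h2 h3
      obtain ⟨i, j, hij, hj, hP, hM⟩ := hN a h1 h2 h3
      exact ⟨i, j, hij, hj, hP, hM⟩)
  refine ⟨D ∪ D.image (fun d => d * 2), ?_, ?_⟩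
  · intro d hd
    rcases Finset.mem_union.mp hd with h | h
    · exact hD1 d h
    · obtain ⟨e, he, rfl⟩ := Finset.mem_image.mp h
      have := hD1 e he
      omega
  · intro n hn
    rcases Nat.lt_or_ge n 2 with h | h
    · have hn1 : n = 1 := by omega
      subst hn1
      obtain ⟨d, hd, hd2⟩ := hD2 2 le_rfl
      refine ⟨d * 2, Finset.mem_union_right _ (Finset.mem_image_of_mem _ hd), ?_⟩
      rw [mul_one]
      exact hd2
    · obtain ⟨d, hd, hd2⟩ := hD2 n h
      exact ⟨d, Finset.mem_union_left _ hd, hd2⟩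

end BVD
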