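import Pool.Agent.helper24.BVD.Defs
import Pool.Agent.helper31.BVM.Defs

/-!
# BVD: ratios of shifted primes (definitions)
-/

open Finset

namespace BVD

/-- `r = (p+1)/(q+1)` for infinitely many pairs of primes `(p,q)`. -/
def RepP (r : ℚ) : Prop :=
  {x : ℕ × ℕ | x.1.Prime ∧ x.2.Prime ∧ ((x.1 : ℚ) + 1) / ((x.2 : ℚ) + 1) = r}.Infinite

/-- `r = (p-1)/(q-1)` for infinitely many pairs of primes `(p,q)`. -/
def RepM (r : ℚ) : Prop :=
  {x : ℕ × ℕ | x.1.Prime ∧ x.2.Prime ∧ ((x.1 : ℚ) - 1) / ((x.2 : ℚ) - 1) = r}.Infinite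

/-- Positive rationals. -/
abbrev Qpos : Type := {r : ℚ // 0 < r}

/-- The relations on the positive rationals. -/
def GP (r s : Qpos) : Prop := RepP (r.1 / s.1)

def GM (r s : Qpos) : Prop := RepM (r.1 / s.1)

open Classical in
/-- The pair density theorem (helper31's part B), as a proposition. -/
def PDStmt : Prop := ∀ ε : ℝ, 0 < ε → ∃ K : ℕ, ∀ (I : Type) [Fintype I] (a : I → ℕ)
    (b : I → ℤ), BVM.Adm a b → K ≤ Fintype.card I →
    (1 / 4 - ε) * (Fintype.card I : ℝ) ^ 2 ≤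
      (((univ : Finset (I × I)).filter
        (fun p => p.1 ≠ p.2 ∧ BVM.GoodPair a b p.1 p.2)).card : ℝ)

end BVD
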